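import Pool.Agent.Helper10.SP.GoalsE
import Pool.Agent.Helper94.Lin.Dlim

/-! # LAMX: the real linear family of limits over one ball -/

open Complex Metric Set Filter Topology
open scoped ContDiff ComplexConjugate

namespace Pool.Agent.Helper40.SP

open Pool.Agent.Helper95.Lin Pool.Agent.Helper10.SP

theorem NrA.mono' {b N : ℕ} {c : Fin N → Cn b} {P : Set (Cn b) → Tri b → Prop} {i : Fin N}
    {ρ ε ε' : ℝ} {t : Tri b} (h : NrA c P i ρ ε t) (hε : ε ≤ ε') : NrA c P i ρ ε' t :=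
  ⟨h.1, fun z hz => ⟨(h.2 z hz).1.trans hε, (h.2 z hz).2.trans hε⟩⟩

theorem lamx (hRETN : S_RETN) (hCMPQ : S_CMPQ) (hADDQ : S_ADDQ) (hHYER : S_HYER) : S_LAMX := by
  intro b N c R P Φ C hA i
  obtain ⟨ε₀, hε₀, K₁, hK₁⟩ := hCMPQ c R P Φ C hA i
  obtain ⟨K, hK1, hq1, hq2⟩ : ∃ K : ℝ, 1 ≤ K ∧ (∀ t t', NrA c P i 3 ε₀ t → NrA c P i 3 ε₀ t' →
      ∀ x ∈ ball (c i) 3, ‖t'.q x - t.q x‖ ≤ K * (1 + ‖t'.q (c i) - t.q (c i)‖)) ∧
      ∀ t, NrA c P i 3 ε₀ t → ∀ x ∈ ball (c i) 3, ∀ y ∈ ball (c i) 3,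
        ‖t.q x‖ ≤ K * (1 + ‖t.q y‖) := by
    have h34 : ball (c i) 3 ⊆ ball (c i) 4 := ball_subset_ball (by norm_num)
    refine ⟨max K₁ 1, le_max_right _ _, ?_, ?_⟩
    · intro t t' ht ht' x hx
      exact ((hK₁ t t' ht ht' x (h34 hx)).1 hx).trans
        (mul_le_mul_of_nonneg_right (le_max_left _ _) (by positivity))
    · intro t ht x hx y hy
      exact ((hK₁ t t ht ht x (h34 hx)).2 y (h34 hy)).trans
        (mul_le_mul_of_nonneg_right (le_max_left _ _) (by positivity))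
  have hK0 : 0 < K := by linarith
  have hci : c i ∈ ball (c i) 3 := mem_ball_self (by norm_num)
  obtain ⟨B₀, hB₀⟩ := hRETN c R P Φ C hA i ε₀ hε₀
  choose T hT hTq using hB₀
  have hB₀0 : 0 ≤ B₀ := (norm_nonneg _).trans (hTq 0)
  set F : ℂ → ball (c i) 3 → ℂ := fun w x => (T w).q x with hF
  -- near additivity
  have h1 : ∀ ε > 0, ∃ K' : ℝ, ∀ w w' x, ‖F (w + w') x - F w x - F w' x‖ ≤ ε * ‖w'‖ + K' := by
    intro ε hε
    set ε' : ℝ := ε / (K + 1) with hε'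
    have hε'0 : 0 < ε' := by positivity
    obtain ⟨η, hη, hadd⟩ := hADDQ c R P Φ C hA i (min ε' ε₀) (lt_min hε'0 hε₀)
    obtain ⟨B, hB⟩ := hRETN c R P Φ C hA i (min η ε₀) (lt_min hη hε₀)
    refine ⟨K * (1 + B₀ + 2 * B + ε' * (1 + B)) + ε' * (1 + B) + 2 * (K * (1 + B₀ + B)),
      fun w w' x => ?_⟩
    obtain ⟨s, hs, hsq⟩ := hB w
    obtain ⟨s', hs', hsq'⟩ := hB w'
    obtain ⟨u, hu, huq⟩ := hadd s s' (NrA.mono' hs (min_le_left _ _))
      (NrA.mono' hs' (min_le_left _ _))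
    have hs0 := NrA.mono' hs (min_le_right _ _)
    have hs0' := NrA.mono' hs' (min_le_right _ _)
    have hu0 := NrA.mono' hu (min_le_right _ _)
    have hn : ‖s'.q (c i)‖ ≤ ‖w'‖ + B := by
      calc ‖s'.q (c i)‖ = ‖w' + (s'.q (c i) - w')‖ := by congr 1; ring
        _ ≤ ‖w'‖ + ‖s'.q (c i) - w'‖ := norm_add_le _ _
        _ ≤ ‖w'‖ + B := by linarith
    have hur : ∀ y ∈ ball (c i) 3, ‖u.q y - s.q y - s'.q y‖ ≤ ε' * (1 + (‖w'‖ + B)) := by
      intro y hy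
      refine (huq y hy).trans ?_
      have : min ε' ε₀ ≤ ε' := min_le_left _ _
      gcongr
    have huc : ‖u.q (c i) - (w + w')‖ ≤ ε' * (1 + (‖w'‖ + B)) + 2 * B := by
      calc ‖u.q (c i) - (w + w')‖ = ‖(u.q (c i) - s.q (c i) - s'.q (c i)) +
            (s.q (c i) - w) + (s'.q (c i) - w')‖ := by congr 1; ring
        _ ≤ ‖u.q (c i) - s.q (c i) - s'.q (c i)‖ + ‖s.q (c i) - w‖ + ‖s'.q (c i) - w'‖ :=
            norm_add₃_le
        _ ≤ _ := by linarith [hur (c i) hci]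
    have a1 : ‖(T (w + w')).q x - u.q x‖ ≤
        K * (1 + (B₀ + (ε' * (1 + (‖w'‖ + B)) + 2 * B))) := by
      refine (hq1 _ _ hu0 (hT (w + w')) x x.2).trans ?_
      have : ‖(T (w + w')).q (c i) - u.q (c i)‖ ≤ B₀ + (ε' * (1 + (‖w'‖ + B)) + 2 * B) := by
        calc ‖(T (w + w')).q (c i) - u.q (c i)‖ =
            ‖((T (w + w')).q (c i) - (w + w')) - (u.q (c i) - (w + w'))‖ := by congr 1; ring
          _ ≤ ‖(T (w + w')).q (c i) - (w + w')‖ + ‖u.q (c i) - (w + w')‖ := norm_sub_le _ _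
          _ ≤ _ := by linarith [hTq (w + w')]
      gcongr
    have a2 : ‖(T w).q x - s.q x‖ ≤ K * (1 + (B₀ + B)) := by
      refine (hq1 _ _ hs0 (hT w) x x.2).trans ?_
      have : ‖(T w).q (c i) - s.q (c i)‖ ≤ B₀ + B := by
        calc ‖(T w).q (c i) - s.q (c i)‖ =
            ‖((T w).q (c i) - w) - (s.q (c i) - w)‖ := by congr 1; ring
          _ ≤ ‖(T w).q (c i) - w‖ + ‖s.q (c i) - w‖ := norm_sub_le _ _
          _ ≤ _ := by linarith [hTq w]
      gcongr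
    have a3 : ‖(T w').q x - s'.q x‖ ≤ K * (1 + (B₀ + B)) := by
      refine (hq1 _ _ hs0' (hT w') x x.2).trans ?_
      have : ‖(T w').q (c i) - s'.q (c i)‖ ≤ B₀ + B := by
        calc ‖(T w').q (c i) - s'.q (c i)‖ =
            ‖((T w').q (c i) - w') - (s'.q (c i) - w')‖ := by congr 1; ring
          _ ≤ ‖(T w').q (c i) - w'‖ + ‖s'.q (c i) - w'‖ := norm_sub_le _ _
          _ ≤ _ := by linarith [hTq w']
      gcongr
    have a4 := hur x x.2
    have e1 : F (w + w') x - F w x - F w' x = ((T (w + w')).q x - u.q x) +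
        (u.q x - s.q x - s'.q x) - (((T w).q x - s.q x) + ((T w').q x - s'.q x)) := by
      simp only [hF]; ring
    have e2 : (K + 1) * ε' = ε := by rw [hε']; field_simp
    rw [e1]
    refine (norm_sub_le _ _).trans ((add_le_add (norm_add_le _ _) (norm_add_le _ _)).trans ?_)
    have e3 : K * (1 + (B₀ + (ε' * (1 + (‖w'‖ + B)) + 2 * B))) + ε' * (1 + (‖w'‖ + B)) +
        (K * (1 + (B₀ + B)) + K * (1 + (B₀ + B))) = ((K + 1) * ε') * ‖w'‖ +
        (K * (1 + B₀ + 2 * B + ε' * (1 + B)) + ε' * (1 + B) + 2 * (K * (1 + B₀ + B))) := by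
      ring
    rw [← e2, ← e3]
    linarith
  have hFi : ∀ w, ‖F w ⟨c i, hci⟩ - w‖ ≤ B₀ := hTq
  have h2 : ∃ K' : ℝ, ∀ w x, ‖F w x‖ ≤ K' * (1 + ‖w‖) := by
    refine ⟨K * (1 + B₀), fun w x => ?_⟩
    have a1 := hq2 _ (hT w) x x.2 (c i) hci
    have a2 : ‖(T w).q (c i)‖ ≤ ‖w‖ + B₀ := by
      calc ‖(T w).q (c i)‖ = ‖w + ((T w).q (c i) - w)‖ := by congr 1; ring
        _ ≤ ‖w‖ + ‖(T w).q (c i) - w‖ := norm_add_le _ _
        _ ≤ ‖w‖ + B₀ := by linarith [hTq w]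
    refine a1.trans ?_
    rw [mul_assoc]
    apply mul_le_mul_of_nonneg_left _ hK0.le
    nlinarith [norm_nonneg w]
  obtain ⟨Λ₀, hadd, hhom, happ⟩ := hHYER _ F h1 h2
  -- the limit, uniformly in `x`
  have hlim : ∀ w : ℂ, ∀ ε > 0, ∀ᶠ n : ℕ in atTop, ∀ x,
      ‖F (((n : ℝ) : ℂ) * w) x / n - Λ₀ w x‖ ≤ ε := by
    intro w ε hε
    obtain ⟨K', hK'⟩ := happ (ε / (2 * (‖w‖ + 1))) (by positivity)
    have h3 : Tendsto (fun n : ℕ => K' / (n : ℝ)) atTop (𝓝 0) :=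
      tendsto_const_div_atTop_nhds_zero_nat K'
    filter_upwards [h3.eventually (gt_mem_nhds (half_pos hε)), eventually_gt_atTop 0]
      with n hn hn0 x
    have hn0' : (0 : ℝ) < n := by exact_mod_cast hn0
    have hnc : (n : ℂ) ≠ 0 := by exact_mod_cast hn0.ne'
    have h4 := hK' (((n : ℝ) : ℂ) * w) x
    rw [hhom] at h4
    have e1 : F (((n : ℝ) : ℂ) * w) x / n - Λ₀ w x =
        (F (((n : ℝ) : ℂ) * w) x - ((n : ℝ) : ℂ) * Λ₀ w x) / n := by
      push_cast; field_simp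
    rw [e1, norm_div, Complex.norm_natCast, div_le_iff₀ hn0']
    refine h4.trans ?_
    rw [norm_mul, Complex.norm_real, Real.norm_of_nonneg hn0'.le]
    have h5 : ε / (2 * (‖w‖ + 1)) * (n * ‖w‖) ≤ ε / 2 * n := by
      have h6 : ‖w‖ / (‖w‖ + 1) ≤ 1 := by
        rw [div_le_one (by positivity)]; linarith
      calc ε / (2 * (‖w‖ + 1)) * (n * ‖w‖) = ε / 2 * n * (‖w‖ / (‖w‖ + 1)) := by
            field_simp
        _ ≤ ε / 2 * n * 1 := by gcongr
        _ = ε / 2 * n := mul_one _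
    have h7 : K' ≤ ε / 2 * n := by
      rw [div_lt_iff₀ hn0'] at hn
      exact hn.le
    linarith
  have hlim' : ∀ (w : ℂ) (x : ball (c i) 3),
      Tendsto (fun n : ℕ => F (((n : ℝ) : ℂ) * w) x / n) atTop (𝓝 (Λ₀ w x)) := by
    intro w x
    rw [Metric.tendsto_nhds]
    intro ε hε
    filter_upwards [hlim w (ε / 2) (by linarith)] with n hn
    rw [dist_eq_norm]
    linarith [hn x]
  have hinv : Tendsto (fun n : ℕ => 1 / (n : ℝ)) atTop (𝓝 0) :=
    tendsto_const_div_atTop_nhds_zero_nat 1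
  -- the value at the centre
  have hcen : ∀ w, Λ₀ w ⟨c i, hci⟩ = w := by
    intro w
    refine tendsto_nhds_unique (hlim' w ⟨c i, hci⟩) ?_
    rw [tendsto_iff_norm_sub_tendsto_zero]
    refine squeeze_zero' (Eventually.of_forall fun _ => norm_nonneg _) ?_
      (tendsto_const_div_atTop_nhds_zero_nat B₀)
    filter_upwards [eventually_gt_atTop 0] with n hn0
    have hn0' : (0 : ℝ) < n := by exact_mod_cast hn0
    have hnc : (n : ℂ) ≠ 0 := by exact_mod_cast hn0.ne'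
    have e1 : F (((n : ℝ) : ℂ) * w) ⟨c i, hci⟩ / n - w =
        (F (((n : ℝ) : ℂ) * w) ⟨c i, hci⟩ - ((n : ℝ) : ℂ) * w) / n := by
      push_cast; field_simp
    rw [e1, norm_div, Complex.norm_natCast]
    exact div_le_div_of_nonneg_right (hFi _) hn0'.le
  -- comparison of values
  have hcmp : ∀ (w : ℂ) (x y : ball (c i) 3), ‖Λ₀ w x‖ ≤ K * ‖Λ₀ w y‖ := by
    intro w x y
    have h3 : Tendsto (fun n : ℕ => K * (1 / (n : ℝ) + ‖F (((n : ℝ) : ℂ) * w) y / n‖)) atTop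
        (𝓝 (K * (0 + ‖Λ₀ w y‖))) := (hinv.add (hlim' w y).norm).const_mul K
    rw [zero_add] at h3
    refine le_of_tendsto_of_tendsto (hlim' w x).norm h3 ?_
    filter_upwards [eventually_gt_atTop 0] with n hn0
    have hn0' : (0 : ℝ) < n := by exact_mod_cast hn0
    rw [norm_div, norm_div, Complex.norm_natCast, ← add_div, ← mul_div_assoc]
    apply div_le_div_of_nonneg_right _ hn0'.le
    exact hq2 _ (hT _) x x.2 y y.2
  classical
  refine ⟨fun w x => if h : x ∈ ball (c i) 3 then Λ₀ w ⟨x, h⟩ else 0, ε₀, K, hε₀, hK0,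
    ?_, ?_, ?_, ?_, ?_, ?_⟩
  · intro w w' x hx
    simp only [dif_pos hx]
    exact hadd w w' _
  · intro r w x hx
    simp only [dif_pos hx]
    exact hhom r w _
  · intro w
    simp only [dif_pos hci]
    exact hcen w
  · intro w
    have hd : ∀ n : ℕ, DifferentiableOn ℂ
        (fun x : Cn b => (fun _ => (T (((n : ℝ) : ℂ) * w)).q x / n : Cn 1)) (ball (c i) 3) := by
      intro n
      rw [differentiableOn_pi]
      intro _
      obtain ⟨-, -, -, ha, hβ, hne⟩ := hA.holo _ _ (hT (((n : ℝ) : ℂ) * w)).1.1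
      have h34 : ball (c i) 3 ⊆ ball (c i) 4 := ball_subset_ball (by norm_num)
      have : DifferentiableOn ℂ (fun x : Cn b => (T (((n : ℝ) : ℂ) * w)).q x / n)
          (ball (c i) 3) := by
        have h5 := (hβ.mono h34).mul ((ha.mono h34).inv fun z hz => (hne z (h34 hz)).2)
        refine (h5.mul_const ((n : ℂ)⁻¹)).congr fun x _ => ?_
        simp only [Tri.q, Pi.mul_apply, Pi.inv_apply, div_eq_mul_inv]
      exact this
    have h3 := (Pool.Agent.Helper94.Lin.dlim (ball (c i) 3) isOpen_ball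
      (fun n => fun x : Cn b => (fun _ => (T (((n : ℝ) : ℂ) * w)).q x / n : Cn 1))
      (fun x => fun _ => if h : x ∈ ball (c i) 3 then Λ₀ w ⟨x, h⟩ else 0) hd ?_).1
    · rw [differentiableOn_pi] at h3
      exact h3 0
    · intro K' hK' _ ε hε
      filter_upwards [hlim w ε hε] with n hn z hz
      refine (pi_norm_le_iff_of_nonneg hε.le).2 fun _ => ?_
      simp only [Pi.sub_apply, dif_pos (hK' hz)]
      exact hn ⟨z, hK' hz⟩
  · intro w x hx
    simp only [dif_pos hx]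
    have h3 := hcmp w ⟨c i, hci⟩ ⟨x, hx⟩
    have h4 := hcmp w ⟨x, hx⟩ ⟨c i, hci⟩
    rw [hcen] at h3 h4
    exact ⟨h3, h4⟩
  · intro ε hε
    obtain ⟨K', hK'⟩ := happ ε hε
    refine ⟨K * (1 + B₀) + K', fun t ht x hx => ?_⟩
    simp only [dif_pos hx]
    have h3 := hK' (t.q (c i)) ⟨x, hx⟩
    have h4 := hq1 _ _ (hT (t.q (c i))) ht x hx
    have h5 : ‖t.q (c i) - (T (t.q (c i))).q (c i)‖ ≤ B₀ := by
      rw [norm_sub_rev]; exact hTq _
    have h6 : ‖t.q x - (T (t.q (c i))).q x‖ ≤ K * (1 + B₀) := h4.trans (by gcongr)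
    calc ‖t.q x - Λ₀ (t.q (c i)) ⟨x, hx⟩‖ = ‖(t.q x - (T (t.q (c i))).q x) +
          (F (t.q (c i)) ⟨x, hx⟩ - Λ₀ (t.q (c i)) ⟨x, hx⟩)‖ := by
            simp only [hF]; congr 1; ring
      _ ≤ _ := norm_add_le _ _
      _ ≤ ε * ‖t.q (c i)‖ + (K * (1 + B₀) + K') := by linarith

end Pool.Agent.Helper40.SP
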