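import Pool.Agent.Helper10.SP.GoalsK
import Pool.Agent.Helper95.Lin.Basics
import Pool.Agent.Helper27.Lin.Montel
import Pool.Agent.Helper9.Lin.LogInt

/-! # LCPT: compactness of holomorphic sections -/

open Complex Metric Set Filter Topology MeasureTheory
open scoped ContDiff ComplexConjugate

namespace Pool.Agent.Helper40.SP

open Pool.Agent.Helper95.Lin Pool.Agent.Helper10.SP

universe u

/-- The norm of a circle average. -/
theorem norm_circleAverage_le (f : ℂ → ℂ) (c : ℂ) (R : ℝ) :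
    ‖Real.circleAverage f c R‖ ≤ Real.circleAverage (fun z => ‖f z‖) c R := by
  rw [Real.circleAverage_def, Real.circleAverage_def, norm_smul, smul_eq_mul,
    Real.norm_of_nonneg (by positivity)]
  apply mul_le_mul_of_nonneg_left _ (by positivity)
  exact intervalIntegral.norm_integral_le_integral_norm (by positivity)

/-- `‖g‖ ^ 2` is plurisubharmonic for holomorphic `g`. -/
theorem pshOn_norm_sq {n : ℕ} {T : Set (Cn n)} (hT : IsOpen T) {g : Cn n → ℂ}
    (hg : DifferentiableOn ℂ g T) : PshOn (fun x => ‖g x‖ ^ 2) T := by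
  intro x _ e he
  have hL : Differentiable ℂ (fun ζ : ℂ => x + ζ • e) := by
    intro ζ
    exact (differentiableAt_id.smul_const e).const_add x
  have hd : DiffContOnCl ℂ (fun ζ : ℂ => g (x + ζ • e) ^ 2) (ball 0 |(1 : ℝ)|) := by
    have h1 : DifferentiableOn ℂ (fun ζ : ℂ => g (x + ζ • e) ^ 2) (closedBall 0 1) := by
      intro ζ hζ
      have h2 : x + ζ • e ∈ T := he ζ (by simpa using hζ)
      have h3 : DifferentiableAt ℂ g (x + ζ • e) := hg.differentiableAt (hT.mem_nhds h2)
      exact ((h3.comp ζ (hL ζ)).pow 2).differentiableWithinAt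
    refine ⟨h1.mono (by simpa using ball_subset_closedBall), ?_⟩
    rw [abs_one, closure_ball _ one_ne_zero]
    exact h1.continuousOn
  have h1 := hd.circleAverage
  have h2 := norm_circleAverage_le (fun ζ : ℂ => g (x + ζ • e) ^ 2) 0 1
  rw [h1] at h2
  simpa using h2

/-- Sup bound by the `L²` norm. -/
theorem sup_le_L2 {n : ℕ} {T : Set (Cn n)} (hT : IsOpen T) {g : Cn n → ℂ}
    (hg : DifferentiableOn ℂ g T) {x : Cn n} {r : ℝ} (hr : 0 ≤ r) (hx : closedBall x r ⊆ T) :
    ‖g x‖ ^ 2 * volume.real (closedBall x r) ≤ ∫ y in closedBall x r, ‖g y‖ ^ 2 :=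
  Pool.Agent.Helper9.Lin.ball_sub (hg.continuousOn.norm.pow 2) (pshOn_norm_sq hT hg) hr hx

theorem nsE_nonneg {n : ℕ} {T : Set (Cn n)} (hT : IsOpen T) {κ W : Cn n → ℝ}
    (hκ : ∀ x, 0 ≤ κ x) (hW : ∀ x ∈ T, 0 < W x) (s : Cn n → ℂ) : 0 ≤ nsE T κ W s :=
  setIntegral_nonneg hT.measurableSet fun x hx =>
    mul_nonneg (mul_nonneg (hκ x) (hW x hx).le) (by positivity)

theorem lcpt (hL2C : S_L2C.{u}) : S_LCPT.{u} := by
  intro n T G _ R H hK κ hκ m W hW g B hg
  have hT : IsOpen T := hK.et.isOpen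
  have hns : ∀ j, 0 ≤ nsE T κ W (g j) := fun j => nsE_nonneg hT hκ.nonneg hW.pos _
  -- local bounds
  have hbd : ∀ K ⊆ T, IsCompact K → ∃ C : ℝ, ∀ k, ∀ z ∈ K,
      ‖(fun _ => g k z : Cn 1)‖ ≤ C := by
    intro K hKT hKc
    obtain ⟨r, hr, hrT⟩ := hKc.exists_cthickening_subset_open hT hKT
    have hK'c : IsCompact (cthickening r K) := hKc.cthickening
    obtain ⟨B', hB'⟩ := hL2C T R H hK κ hκ m W hW (cthickening r K) hrT hK'c
    set v : ℝ := volume.real (closedBall (0 : Cn n) r) with hv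
    have hv0 : 0 < v := by
      rw [hv, Measure.real]
      refine ENNReal.toReal_pos ?_ ?_
      · exact (measure_closedBall_pos volume (0 : Cn n) hr).ne'
      · exact (isCompact_closedBall (0 : Cn n) r).measure_lt_top.ne
    refine ⟨Real.sqrt (|B'| * B / v), fun k z hz => ?_⟩
    rw [pi_norm_le_iff_of_nonneg (Real.sqrt_nonneg _)]
    intro _
    apply Real.le_sqrt_of_sq_le
    rw [le_div_iff₀ hv0]
    have hzr : closedBall z r ⊆ cthickening r K := closedBall_subset_cthickening hz r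
    have h1 := sup_le_L2 hT (hg k).2.1 hr.le (hzr.trans hrT)
    have hvz : volume.real (closedBall z r) = v := by
      rw [hv, Measure.real, Measure.real, Measure.addHaar_closedBall_center volume z r]
    rw [hvz] at h1
    refine h1.trans ?_
    have hint : IntegrableOn (fun y => ‖g k y‖ ^ 2) (cthickening r K) :=
      (((hg k).2.1.continuousOn.mono hrT).norm.pow 2).integrableOn_compact hK'c
    have h2 : ∫ y in closedBall z r, ‖g k y‖ ^ 2 ≤ ∫ y in cthickening r K, ‖g k y‖ ^ 2 :=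
      setIntegral_mono_set hint (Eventually.of_forall fun y => by positivity)
        (LE.le.eventuallyLE hzr)
    refine h2.trans (((hB' (g k) (hg k).1).1).trans ?_)
    calc B' * nsE T κ W (g k) ≤ |B'| * nsE T κ W (g k) :=
          mul_le_mul_of_nonneg_right (le_abs_self _) (hns k)
      _ ≤ |B'| * B := mul_le_mul_of_nonneg_left (hg k).2.2 (abs_nonneg _)
  obtain ⟨φ, hφ, F, hF, hlim⟩ := _root_.Helper27.LinMontel.montel T hT
    (fun k z => (fun _ => g k z : Cn 1)) (fun k => by
      rw [differentiableOn_pi]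
      intro _
      exact (hg k).2.1) hbd
  have hF0 : DifferentiableOn ℂ (fun x => F x 0) T := by
    rw [differentiableOn_pi] at hF
    exact hF 0
  have hlu : ∀ K ⊆ T, IsCompact K → ∀ ε > 0, ∀ᶠ k in atTop, ∀ z ∈ K,
      ‖g (φ k) z - F z 0‖ ≤ ε := by
    intro K hKT hKc ε hε
    filter_upwards [hlim K hKT hKc ε hε] with k hk z hz
    exact (norm_le_pi_norm ((fun _ => g (φ k) z : Cn 1) - F z) 0).trans (hk z hz)
  have hpt : ∀ x ∈ T, Tendsto (fun k => g (φ k) x) atTop (𝓝 (F x 0)) := by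
    intro x hx
    rw [Metric.tendsto_nhds]
    intro ε hε
    filter_upwards [hlu {x} (singleton_subset_iff.2 hx) isCompact_singleton (ε / 2)
      (half_pos hε)] with k hk
    rw [dist_eq_norm]
    linarith [hk x rfl]
  refine ⟨φ, fun x => F x 0, hφ, ⟨holo_contDiffOn_real hT hF0, ?_⟩, hF0, ?_⟩
  · intro U τ hU x hx
    obtain ⟨γ, hγ⟩ := hU.2.2
    obtain ⟨hxT, hτT⟩ := hK.et.mem γ x (τ x) (hγ x hx)
    have h1 : Tendsto (fun k => g (φ k) (τ x) * (fderiv ℂ τ x).det ^ m) atTop
        (𝓝 (F (τ x) 0 * (fderiv ℂ τ x).det ^ m)) := (hpt _ hτT).mul_const _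
    refine tendsto_nhds_unique (hpt x hxT) (h1.congr fun k => ?_)
    exact ((hg (φ k)).1.2 U τ hU x hx).symm
  · rw [tendstoLocallyUniformlyOn_iff_forall_isCompact hT]
    intro K hKT hKc
    rw [Metric.tendstoUniformlyOn_iff]
    intro ε hε
    filter_upwards [hlu K hKT hKc (ε / 2) (half_pos hε)] with k hk x hx
    rw [dist_comm, dist_eq_norm]
    linarith [hk x hx]

end Pool.Agent.Helper40.SP
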