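import Pool.Agent.Helper10.SP.GoalsA
import Pool.Agent.Helper95.Lin.Basics
import Pool.Agent.Helper94.Lin.Dlim
import Pool.Agent.Helper3.Lin.Plu

/-! # STR: straightening of a holomorphic vector field

The flow is the limit of the Euler approximations, which are holomorphic. -/

open Complex Metric Set Filter Topology
open scoped ContDiff

namespace Pool.Agent.Helper40.SP

open Pool.Agent.Helper95.Lin Pool.Agent.Helper16.Abund Pool.Agent.Helper10.SP

/-- Euler iterates with step `h`. -/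
def eul {n : ℕ} (ξ : Cn n → Cn n) (h : ℂ) : ℕ → Cn n → Cn n
  | 0, y => y
  | j + 1, y => eul ξ h j y + h • ξ (eul ξ h j y)

theorem eul_mem {n : ℕ} {ξ : Cn n → Cn n} {p : Cn n} {R A : ℝ} (hA : 0 ≤ A)
    (hb : ∀ y ∈ ball p R, ‖ξ y‖ ≤ A) {h : ℂ} {y : Cn n} (hy : y ∈ ball p (R / 2)) {N : ℕ}
    (hN : N * ‖h‖ * A < R / 2) : ∀ j ≤ N, ‖eul ξ h j y - y‖ ≤ j * ‖h‖ * A ∧
      eul ξ h j y ∈ ball p R := by
  intro j
  induction j with
  | zero =>
    intro _
    refine ⟨by simp [eul], ?_⟩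
    rw [mem_ball] at hy ⊢
    have : 0 < R / 2 := lt_of_le_of_lt dist_nonneg hy
    simp only [eul]
    linarith
  | succ j ih =>
    intro hj
    obtain ⟨h1, h2⟩ := ih (by omega)
    have h3 : ‖eul ξ h (j + 1) y - y‖ ≤ ((j + 1 : ℕ) : ℝ) * ‖h‖ * A := by
      have e : eul ξ h (j + 1) y - y = (eul ξ h j y - y) + h • ξ (eul ξ h j y) := by
        simp only [eul]; abel
      rw [e]
      refine (norm_add_le _ _).trans ?_
      have h4 : ‖h • ξ (eul ξ h j y)‖ ≤ ‖h‖ * A := by
        rw [norm_smul]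
        exact mul_le_mul_of_nonneg_left (hb _ h2) (norm_nonneg _)
      push_cast
      linarith
    refine ⟨h3, ?_⟩
    rw [mem_ball, dist_eq_norm] at hy ⊢
    have h5 : ((j + 1 : ℕ) : ℝ) * ‖h‖ * A ≤ N * ‖h‖ * A := by
      have : ((j + 1 : ℕ) : ℝ) ≤ N := by exact_mod_cast hj
      have h6 := norm_nonneg h
      gcongr
    calc ‖eul ξ h (j + 1) y - p‖ = ‖(eul ξ h (j + 1) y - y) + (y - p)‖ := by congr 1; abel
      _ ≤ ‖eul ξ h (j + 1) y - y‖ + ‖y - p‖ := norm_add_le _ _
      _ < R := by linarith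

/-- Convergence of the Euler method. -/
theorem eul_conv {n : ℕ} {ξ : Cn n → Cn n} {p : Cn n} {R A L : ℝ} (hA : 0 ≤ A) (hL : 0 ≤ L)
    (hb : ∀ y ∈ ball p R, ‖ξ y‖ ≤ A)
    (hl : ∀ y ∈ ball p R, ∀ z ∈ ball p R, ‖ξ y - ξ z‖ ≤ L * ‖y - z‖)
    {T : ℝ} (hT : T * A < R / 2) {y : Cn n} (hy : y ∈ ball p (R / 2)) {w : ℂ} (hw : ‖w‖ ≤ 1)
    {x : ℝ → Cn n} (hx : Sol (ball p R) (fun y => w • ξ y) y T x) {s : ℝ} (hs : s ∈ Icc 0 T)
    {N : ℕ} (hN : 0 < N) :
    ‖x s - eul ξ ((s : ℂ) * w / N) N y‖ ≤ A * T * Real.exp (L * T) / N := by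
  obtain ⟨hx0, hx1⟩ := hx
  have hN' : (0 : ℝ) < N := by exact_mod_cast hN
  have hs0 : 0 ≤ s := hs.1
  have hT0 : 0 ≤ T := hs0.trans hs.2
  -- the solution is Lipschitz
  have lip : ∀ a ∈ Icc (0 : ℝ) T, ∀ c ∈ Icc (0 : ℝ) T, ‖x c - x a‖ ≤ A * ‖c - a‖ := by
    intro a ha c hc
    refine Convex.norm_image_sub_le_of_norm_hasDerivWithin_le (f := x)
      (f' := fun t => w • ξ (x t)) (s := Icc 0 T) (fun t ht => (hx1 t ht).2) ?_ (convex_Icc _ _)
      ha hc
    intro t ht
    rw [norm_smul]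
    have h1 := hb _ (hx1 t ht).1
    calc ‖w‖ * ‖ξ (x t)‖ ≤ 1 * A := by gcongr
      _ = A := one_mul A
  -- local error
  have loc : ∀ a ∈ Icc (0 : ℝ) T, ∀ h : ℝ, 0 ≤ h → a + h ∈ Icc (0 : ℝ) T →
      ‖x (a + h) - x a - ((h : ℂ) * w) • ξ (x a)‖ ≤ L * A * h ^ 2 := by
    intro a ha h hh hah
    have hsub : Icc a (a + h) ⊆ Icc 0 T := Icc_subset_Icc ha.1 hah.2
    have hd : ∀ t ∈ Icc a (a + h), HasDerivWithinAt
        (fun t : ℝ => x t - (((t - a : ℝ) : ℂ) * w) • ξ (x a))
        (w • ξ (x t) - w • ξ (x a)) (Icc a (a + h)) t := by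
      intro t ht
      have h1 := ((hx1 t (hsub ht)).2).mono hsub
      have h2 : HasDerivWithinAt (fun t : ℝ => (((t - a : ℝ) : ℂ) * w) • ξ (x a))
          (w • ξ (x a)) (Icc a (a + h)) t := by
        have h3 : HasDerivAt (fun t : ℝ => ((t - a : ℝ) : ℂ)) 1 t := by
          have := ((hasDerivAt_id t).sub_const a).ofReal_comp
          simpa using this
        have h4 := ((h3.mul_const w).smul_const (ξ (x a)))
        simpa using h4.hasDerivWithinAt
      exact h1.sub h2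
    have h5 := Convex.norm_image_sub_le_of_norm_hasDerivWithin_le (C := L * A * h) hd ?_
      (convex_Icc _ _) (left_mem_Icc.2 (by linarith)) (right_mem_Icc.2 (by linarith))
    · have e : x (a + h) - x a - ((h : ℂ) * w) • ξ (x a) =
          (x (a + h) - (((a + h - a : ℝ) : ℂ) * w) • ξ (x a)) -
            (x a - (((a - a : ℝ) : ℂ) * w) • ξ (x a)) := by
        simp only [add_sub_cancel_left, sub_self, ofReal_zero, zero_mul, zero_smul, sub_zero]
        abel
      rw [e]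
      refine h5.trans (le_of_eq ?_)
      rw [add_sub_cancel_left, Real.norm_of_nonneg hh]; ring
    · intro t ht
      rw [← smul_sub, norm_smul]
      have h6 := hl _ (hx1 t (hsub ht)).1 _ (hx1 a ha).1
      have h7 := lip a ha t (hsub ht)
      have h8 : ‖t - a‖ ≤ h := by
        rw [Real.norm_of_nonneg (by linarith [ht.1])]; linarith [ht.2]
      calc ‖w‖ * ‖ξ (x t) - ξ (x a)‖ ≤ 1 * (L * (A * h)) := by
            refine mul_le_mul hw (h6.trans ?_) (norm_nonneg _) zero_le_one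
            refine mul_le_mul_of_nonneg_left (h7.trans ?_) hL
            exact mul_le_mul_of_nonneg_left h8 hA
        _ = L * A * h := by ring
  set h : ℝ := s / N with hh
  have hh0 : 0 ≤ h := div_nonneg hs0 hN'.le
  have hNh : N * h = s := by rw [hh]; field_simp
  have hc : (s : ℂ) * w / N = (h : ℂ) * w := by
    rw [hh]; push_cast; ring
  have hcn : ‖(h : ℂ) * w‖ ≤ h := by
    rw [norm_mul, Complex.norm_real, Real.norm_of_nonneg hh0]
    calc h * ‖w‖ ≤ h * 1 := by gcongr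
      _ = h := mul_one h
  have hNA : N * ‖(h : ℂ) * w‖ * A < R / 2 := by
    refine lt_of_le_of_lt ?_ hT
    calc N * ‖(h : ℂ) * w‖ * A ≤ N * h * A := by gcongr
      _ ≤ T * A := by rw [hNh]; exact mul_le_mul_of_nonneg_right hs.2 hA
  have key : ∀ j ≤ N, ‖x (j * h) - eul ξ ((h : ℂ) * w) j y‖ ≤ A * h * ((1 + L * h) ^ j - 1) := by
    intro j
    induction j with
    | zero => intro _; simp [eul, hx0]
    | succ j ih =>
      intro hj
      have h1 := ih (by omega)
      have hm := (eul_mem hA hb hy hNA j (by omega)).2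
      have hj1 : ((j : ℝ) + 1) * h ≤ T := by
        have : ((j : ℝ) + 1) ≤ N := by exact_mod_cast hj
        calc ((j : ℝ) + 1) * h ≤ N * h := by gcongr
          _ ≤ T := by rw [hNh]; exact hs.2
      have hjm : (j : ℝ) * h ∈ Icc (0 : ℝ) T := ⟨by positivity, by nlinarith⟩
      have hjm' : (j : ℝ) * h + h ∈ Icc (0 : ℝ) T := ⟨by positivity, by nlinarith⟩
      have h2 := loc _ hjm h hh0 hjm'
      have h3 := hl _ (hx1 _ hjm).1 _ hm
      have e : x (((j + 1 : ℕ) : ℝ) * h) - eul ξ ((h : ℂ) * w) (j + 1) y =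
          (x ((j : ℝ) * h + h) - x ((j : ℝ) * h) - ((h : ℂ) * w) • ξ (x ((j : ℝ) * h))) +
          (x ((j : ℝ) * h) - eul ξ ((h : ℂ) * w) j y) +
          ((h : ℂ) * w) • (ξ (x ((j : ℝ) * h)) - ξ (eul ξ ((h : ℂ) * w) j y)) := by
        have e1 : ((j + 1 : ℕ) : ℝ) * h = (j : ℝ) * h + h := by push_cast; ring
        rw [e1, smul_sub]
        simp only [eul]
        abel
      rw [e]
      refine (norm_add₃_le).trans ?_
      have h4 : ‖((h : ℂ) * w) • (ξ (x ((j : ℝ) * h)) - ξ (eul ξ ((h : ℂ) * w) j y))‖ ≤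
          h * (L * ‖x ((j : ℝ) * h) - eul ξ ((h : ℂ) * w) j y‖) := by
        rw [norm_smul]
        exact mul_le_mul hcn h3 (norm_nonneg _) hh0
      have h5 : h * (L * ‖x ((j : ℝ) * h) - eul ξ ((h : ℂ) * w) j y‖) ≤
          h * (L * (A * h * ((1 + L * h) ^ j - 1))) := by gcongr
      have e2 : A * h * ((1 + L * h) ^ (j + 1) - 1) = L * A * h ^ 2 +
          A * h * ((1 + L * h) ^ j - 1) + h * (L * (A * h * ((1 + L * h) ^ j - 1))) := by ring
      rw [e2]
      linarith
  have h1 := key N le_rfl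
  rw [hNh, ← hc] at h1
  refine h1.trans ?_
  have h2 : (1 + L * h) ^ N ≤ Real.exp (L * T) := by
    have h3 : 1 + L * h ≤ Real.exp (L * h) := by
      have := Real.add_one_le_exp (L * h); linarith
    calc (1 + L * h) ^ N ≤ Real.exp (L * h) ^ N := by
          have : 0 ≤ 1 + L * h := by positivity
          gcongr
      _ = Real.exp (L * s) := by rw [← Real.exp_nat_mul, ← hNh]; congr 1; ring
      _ ≤ Real.exp (L * T) := by
          apply Real.exp_le_exp.2
          exact mul_le_mul_of_nonneg_left hs.2 hL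
  have h3 : 0 ≤ Real.exp (L * T) := (Real.exp_pos _).le
  calc A * h * ((1 + L * h) ^ N - 1) ≤ A * h * Real.exp (L * T) := by
        apply mul_le_mul_of_nonneg_left _ (by positivity)
        linarith
    _ ≤ A * (T / N) * Real.exp (L * T) := by
        have : h ≤ T / N := by rw [hh]; exact div_le_div_of_nonneg_right hs.2 hN'.le
        gcongr
    _ = A * T * Real.exp (L * T) / N := by ring

/-! ## Product coordinates -/

theorem base_pt {b : ℕ} (z : Cn b) (w : ℂ) : base (k := 1) (pt z w) = z := by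
  ext i
  simp [base, pt]

theorem lc_pt {b : ℕ} (z : Cn b) (w : ℂ) : lc (pt z w) = w := by
  simp [lc, pt]

theorem pt_base_lc {b : ℕ} (x : Cn (b + 1)) : pt (base x) (lc x) = x := by
  ext i
  refine Fin.addCases (fun i => ?_) (fun i => ?_) i
  · simp [pt, base]
  · simp [pt, lc]
    congr 2
    exact Subsingleton.elim _ _

/-- `base` as a linear map. -/
noncomputable def baseL (b : ℕ) : Cn (b + 1) →L[ℂ] Cn b :=
  ContinuousLinearMap.pi fun i => ContinuousLinearMap.proj (Fin.castAdd 1 i)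

/-- `lc` as a linear map. -/
noncomputable def lcL (b : ℕ) : Cn (b + 1) →L[ℂ] ℂ := ContinuousLinearMap.proj (Fin.natAdd b 0)

theorem baseL_apply {b : ℕ} (x : Cn (b + 1)) : baseL b x = base x := rfl

theorem lcL_apply {b : ℕ} (x : Cn (b + 1)) : lcL b x = lc x := rfl

theorem isOpen_prodS' {b : ℕ} {U : Set (Cn b)} {V : Set ℂ} (hU : IsOpen U) (hV : IsOpen V) :
    IsOpen (prodS U V) :=
  (hU.preimage (baseL b).continuous).inter (hV.preimage (lcL b).continuous)

theorem base_ew (b : ℕ) : base (k := 1) (ew b) = 0 := by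
  ext i
  simp only [base, ew, Pi.zero_apply]
  rw [Pi.single_apply, if_neg]
  intro h
  have := congrArg Fin.val h
  simp at this
  omega

theorem lc_ew (b : ℕ) : lc (ew b) = 1 := by
  simp [lc, ew]

/-- The hyperplane `y i = p i`. -/
def x0 {b : ℕ} (p : Cn (b + 1)) (i : Fin (b + 1)) (z : Cn b) : Cn (b + 1) :=
  p + i.insertNth (α := fun _ => ℂ) 0 z

/-- `insertNth` as a linear map. -/
noncomputable def insL {b : ℕ} (i : Fin (b + 1)) : Cn b →L[ℂ] Cn (b + 1) :=
  LinearMap.toContinuousLinearMap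
    { toFun := fun z => i.insertNth (α := fun _ => ℂ) 0 z
      map_add' := by
        intro z w
        ext j
        refine Fin.succAboveCases i ?_ (fun j => ?_) j <;> simp
      map_smul' := by
        intro c z
        ext j
        refine Fin.succAboveCases i ?_ (fun j => ?_) j <;> simp }

theorem x0_eq {b : ℕ} (p : Cn (b + 1)) (i : Fin (b + 1)) (z : Cn b) : x0 p i z = p + insL i z :=
  rfl

theorem insL_same {b : ℕ} (i : Fin (b + 1)) (z : Cn b) : insL i z i = 0 := by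
  show i.insertNth (α := fun _ => ℂ) 0 z i = 0
  simp

theorem insL_succ {b : ℕ} (i : Fin (b + 1)) (z : Cn b) (j : Fin b) :
    insL i z (i.succAbove j) = z j := by
  show i.insertNth (α := fun _ => ℂ) 0 z (i.succAbove j) = z j
  simp

theorem norm_insL {b : ℕ} (i : Fin (b + 1)) (z : Cn b) : ‖insL i z‖ ≤ ‖z‖ := by
  refine (pi_norm_le_iff_of_nonneg (norm_nonneg _)).2 fun j => ?_
  refine Fin.succAboveCases i ?_ (fun j => ?_) j
  · rw [insL_same]; simp
  · rw [insL_succ]; exact norm_le_pi_norm z j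

/-! ## The theorem -/

theorem str : S_STR := by
  intro b W hW p hp i ξ hξ hξi
  -- the ball
  obtain ⟨R, hR, hRW⟩ := Metric.nhds_basis_closedBall.mem_iff.1 (hW.mem_nhds hp)
  have hbW : ball p R ⊆ W := ball_subset_closedBall.trans hRW
  have hcomp : IsCompact (closedBall p R) := isCompact_closedBall p R
  obtain ⟨A, hA'⟩ := hcomp.exists_bound_of_continuousOn (hξ.continuousOn.mono hRW)
  have hA : 0 ≤ A := (norm_nonneg _).trans (hA' p (mem_closedBall_self hR.le))
  obtain ⟨L, hL'⟩ := hcomp.exists_bound_of_continuousOn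
    ((holo_fderiv hW hξ).continuousOn.mono hRW)
  have hL : 0 ≤ L := (norm_nonneg _).trans (hL' p (mem_closedBall_self hR.le))
  have hb : ∀ y ∈ ball p R, ‖ξ y‖ ≤ A := fun y hy => hA' y (ball_subset_closedBall hy)
  have hl : ∀ y ∈ ball p R, ∀ z ∈ ball p R, ‖ξ y - ξ z‖ ≤ L * ‖y - z‖ := by
    intro y hy z hz
    refine Convex.norm_image_sub_le_of_norm_fderiv_le (𝕜 := ℂ) (f := ξ) (s := ball p R) ?_ ?_
      (convex_ball p R) hz hy
    · intro x hx
      exact hξ.differentiableAt (hW.mem_nhds (hbW hx))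
    · intro x hx
      exact hL' x (ball_subset_closedBall hx)
  -- real time solutions
  obtain ⟨δ₀, hδ₀, hsol⟩ := Pool.Agent.Helper3.Lin.PLU (m := 1) (ball p R) isOpen_ball
    (fun _ => ξ) (fun _ => hξ.mono hbW) (closedBall p (R / 2))
    (closedBall_subset_ball (by linarith)) (isCompact_closedBall _ _)
  obtain ⟨T, hT0, hTδ, hTA⟩ : ∃ T : ℝ, 0 < T ∧ T ≤ δ₀ ∧ T * A < R / 2 := by
    refine ⟨min δ₀ (R / (4 * (A + 1))), lt_min hδ₀ (by positivity), min_le_left _ _, ?_⟩
    calc min δ₀ (R / (4 * (A + 1))) * A ≤ R / (4 * (A + 1)) * A := by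
          gcongr; exact min_le_right _ _
      _ = R / 4 * (A / (A + 1)) := by field_simp
      _ ≤ R / 4 * 1 := by
          have : A / (A + 1) ≤ 1 := by rw [div_le_one (by linarith)]; linarith
          gcongr
      _ < R / 2 := by linarith
  have hsol' : ∀ y ∈ ball p (R / 2), ∀ w : ℂ, ‖w‖ ≤ 1 →
      ∃ x, Sol (ball p R) (fun y => w • ξ y) y T x := by
    intro y hy w hw
    obtain ⟨x, hx0, hx⟩ := hsol (fun _ => w)
      ((pi_norm_le_iff_of_nonneg zero_le_one).2 fun _ => hw) y (ball_subset_closedBall hy)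
    refine ⟨x, hx0, fun t ht => ?_⟩
    have h1 := hx t ⟨ht.1, ht.2.trans hTδ⟩
    refine ⟨h1.1, ?_⟩
    have h2 := h1.2.mono (Icc_subset_Icc_right hTδ)
    simpa using h2
  obtain ⟨r, hr0, hrT, hrR⟩ : ∃ r : ℝ, 0 < r ∧ r ≤ T ∧ r ≤ R / 2 :=
    ⟨min T (R / 2), lt_min hT0 (by linarith), min_le_left _ _, min_le_right _ _⟩
  set Q : Set (Cn (b + 1)) := prodS (ball 0 r) (ball 0 r) with hQ
  have hQo : IsOpen Q := isOpen_prodS' isOpen_ball isOpen_ball
  have hx0mem : ∀ z ∈ ball (0 : Cn b) r, x0 p i z ∈ ball p (R / 2) := by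
    intro z hz
    rw [mem_ball_zero_iff] at hz
    rw [x0_eq, mem_ball, dist_eq_norm, add_sub_cancel_left]
    exact ((norm_insL i z).trans_lt hz).trans_le hrR
  -- the Euler approximations
  set E : ℕ → Cn (b + 1) → Cn (b + 1) := fun N x =>
    eul ξ (lc x / ((N + 1 : ℕ) : ℂ)) (N + 1) (x0 p i (base x)) with hE
  have hstep : ∀ N : ℕ, ∀ x ∈ Q, ((N + 1 : ℕ) : ℝ) * ‖lc x / ((N + 1 : ℕ) : ℂ)‖ * A < R / 2 := by
    intro N x hx
    have h1 : ‖lc x‖ < r := by have := hx.2; rwa [mem_ball_zero_iff] at this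
    have h2 : ((N + 1 : ℕ) : ℝ) * ‖lc x / ((N + 1 : ℕ) : ℂ)‖ = ‖lc x‖ := by
      rw [norm_div, Complex.norm_natCast]
      have : ((N + 1 : ℕ) : ℝ) ≠ 0 := by positivity
      field_simp
    rw [h2]
    refine lt_of_le_of_lt ?_ hTA
    exact mul_le_mul_of_nonneg_right (h1.le.trans hrT) hA
  have hEd : ∀ N, DifferentiableOn ℂ (E N) Q := by
    intro N
    have key : ∀ j ≤ N + 1, DifferentiableOn ℂ
        (fun x => eul ξ (lc x / ((N + 1 : ℕ) : ℂ)) j (x0 p i (base x))) Q := by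
      intro j
      induction j with
      | zero =>
        intro _
        simp only [eul]
        have : Differentiable ℂ (fun x : Cn (b + 1) => p + insL i (baseL b x)) :=
          ((insL i).comp (baseL b)).differentiable.const_add p
        exact this.differentiableOn
      | succ j ih =>
        intro hj
        have h1 := ih (by omega)
        simp only [eul]
        have h2 : DifferentiableOn ℂ (fun x : Cn (b + 1) => lc x / ((N + 1 : ℕ) : ℂ)) Q := by
          have h3 : (fun x : Cn (b + 1) => lc x / ((N + 1 : ℕ) : ℂ)) =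
              fun x => ((((N + 1 : ℕ) : ℂ)⁻¹ • lcL b : Cn (b + 1) →L[ℂ] ℂ)) x := by
            funext x
            rw [ContinuousLinearMap.smul_apply, lcL_apply, smul_eq_mul, div_eq_inv_mul]
          rw [h3]
          exact (((N + 1 : ℕ) : ℂ)⁻¹ • lcL b).differentiable.differentiableOn
        refine h1.add (h2.smul ?_)
        refine hξ.comp h1 ?_
        intro x hx
        exact hbW (eul_mem hA hb (hx0mem _ hx.1) (hstep N x hx) j (by omega)).2
    exact key (N + 1) le_rfl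
  -- the limit
  have hlim : ∀ x ∈ Q, ∀ w : ℂ, ‖w‖ ≤ 1 → ∀ s ∈ Icc (0 : ℝ) T, (s : ℂ) * w = lc x →
      ∀ X, Sol (ball p R) (fun y => w • ξ y) (x0 p i (base x)) T X → ∀ N,
      ‖X s - E N x‖ ≤ A * T * Real.exp (L * T) / ((N + 1 : ℕ) : ℝ) := by
    intro x hx w hw s hs hsw X hX N
    have := eul_conv hA hL hb hl hTA (hx0mem _ hx.1) hw hX hs (Nat.succ_pos N)
    rw [hsw] at this
    exact this
  have hdir : ∀ c : ℂ, ‖c‖ ≤ T → ∃ w : ℂ, ‖w‖ = 1 ∧ (‖c‖ : ℂ) * w = c := by
    intro c _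
    rcases eq_or_ne c 0 with rfl | hc
    · exact ⟨1, by simp, by simp⟩
    · refine ⟨c / ‖c‖, ?_, ?_⟩
      · rw [norm_div, Complex.norm_real, norm_norm, div_self (norm_ne_zero_iff.2 hc)]
      · have : (‖c‖ : ℂ) ≠ 0 := by exact_mod_cast norm_ne_zero_iff.2 hc
        field_simp
  have hex : ∀ x : Cn (b + 1), ∃ y, x ∈ Q → ∃ w : ℂ, ‖w‖ = 1 ∧ (‖lc x‖ : ℂ) * w = lc x ∧
      ∃ X, Sol (ball p R) (fun y => w • ξ y) (x0 p i (base x)) T X ∧ y = X ‖lc x‖ := by
    intro x
    by_cases hx : x ∈ Q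
    · have h1 : ‖lc x‖ < r := by have := hx.2; rwa [mem_ball_zero_iff] at this
      obtain ⟨w, hw, hw'⟩ := hdir (lc x) (h1.le.trans hrT)
      obtain ⟨X, hX⟩ := hsol' _ (hx0mem _ hx.1) w hw.le
      exact ⟨X ‖lc x‖, fun _ => ⟨w, hw, hw', X, hX, rfl⟩⟩
    · exact ⟨0, fun h => absurd h hx⟩
  choose σ hσ using hex
  have hconst : Tendsto (fun N : ℕ => A * T * Real.exp (L * T) / ((N + 1 : ℕ) : ℝ)) atTop
      (𝓝 0) := by
    have := tendsto_const_div_atTop_nhds_zero_nat (A * T * Real.exp (L * T))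
    exact this.comp (tendsto_add_atTop_nat 1)
  have hσE : ∀ x ∈ Q, ∀ N, ‖E N x - σ x‖ ≤ A * T * Real.exp (L * T) / ((N + 1 : ℕ) : ℝ) := by
    intro x hx N
    obtain ⟨w, hw, hw', X, hX, h1⟩ := hσ x hx
    have h2 : ‖lc x‖ < r := by have := hx.2; rwa [mem_ball_zero_iff] at this
    have := hlim x hx w hw.le ‖lc x‖ ⟨norm_nonneg _, h2.le.trans hrT⟩ hw' X hX N
    rw [h1, norm_sub_rev]
    exact this
  have hσX : ∀ x ∈ Q, ∀ w : ℂ, ‖w‖ ≤ 1 → ∀ s ∈ Icc (0 : ℝ) T, (s : ℂ) * w = lc x →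
      ∀ X, Sol (ball p R) (fun y => w • ξ y) (x0 p i (base x)) T X → σ x = X s := by
    intro x hx w hw s hs hsw X hX
    have h1 : Tendsto (fun N => E N x) atTop (𝓝 (σ x)) := by
      rw [tendsto_iff_norm_sub_tendsto_zero]
      exact squeeze_zero (fun _ => norm_nonneg _) (hσE x hx) hconst
    have h2 : Tendsto (fun N => E N x) atTop (𝓝 (X s)) := by
      rw [tendsto_iff_norm_sub_tendsto_zero]
      refine squeeze_zero (fun _ => norm_nonneg _) (fun N => ?_) hconst
      rw [norm_sub_rev]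
      exact hlim x hx w hw s hs hsw X hX N
    exact tendsto_nhds_unique h1 h2
  have hσW : MapsTo σ Q (ball p R) := by
    intro x hx
    obtain ⟨w, hw, hw', X, hX, h1⟩ := hσ x hx
    have h2 : ‖lc x‖ < r := by have := hx.2; rwa [mem_ball_zero_iff] at this
    rw [h1]
    exact (hX.2 _ ⟨norm_nonneg _, h2.le.trans hrT⟩).1
  have hσd : DifferentiableOn ℂ σ Q := by
    refine (Pool.Agent.Helper94.Lin.dlim Q hQo E σ hEd ?_).1
    intro K hK _ ε hε
    filter_upwards [hconst.eventually (gt_mem_nhds hε)] with N hN z hz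
    exact (hσE z (hK hz) N).trans hN.le
  -- the differential equation
  have hode : ∀ x ∈ Q, fderiv ℂ σ x (ew b) = ξ (σ x) := by
    intro x hx
    have hx2 : ‖lc x‖ < r := by have := hx.2; rwa [mem_ball_zero_iff] at this
    obtain ⟨w, hw, hw'⟩ := hdir (lc x) (hx2.le.trans hrT)
    obtain ⟨X, hX⟩ := hsol' _ (hx0mem _ hx.1) w hw.le
    have hs : ‖lc x‖ ∈ Ico (0 : ℝ) r := ⟨norm_nonneg _, hx2⟩
    have hsub : Ico (0 : ℝ) r ⊆ Icc 0 T := fun t ht => ⟨ht.1, ht.2.le.trans hrT⟩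
    have hc : ∀ t ∈ Ico (0 : ℝ) r, pt (base x) ((t : ℂ) * w) ∈ Q := by
      intro t ht
      refine ⟨?_, ?_⟩
      · rw [base_pt]; exact hx.1
      · rw [lc_pt, mem_ball_zero_iff, norm_mul, hw, mul_one, Complex.norm_real,
          Real.norm_of_nonneg ht.1]
        exact ht.2
    have heq : ∀ t ∈ Ico (0 : ℝ) r, σ (pt (base x) ((t : ℂ) * w)) = X t := by
      intro t ht
      refine hσX _ (hc t ht) w hw.le t (hsub ht) (lc_pt _ _).symm X ?_
      rw [base_pt]; exact hX
    have hxe : pt (base x) ((‖lc x‖ : ℂ) * w) = x := by rw [hw', pt_base_lc]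
    have hcurve : ∀ t : ℝ, pt (base x) ((t : ℂ) * w) = pt (base x) 0 + ((t : ℂ) * w) • ew b := by
      intro t
      ext j
      refine Fin.addCases (fun j => ?_) (fun j => ?_) j
      · have := congrFun (base_ew b) j
        simp only [base, Pi.zero_apply] at this
        simp [pt, this]
      · obtain rfl : j = 0 := Subsingleton.elim _ _
        have := lc_ew b
        simp only [lc] at this
        simp [pt, this]
    have hd1 : HasDerivAt (fun t : ℝ => pt (base x) ((t : ℂ) * w)) (w • ew b) ‖lc x‖ := by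
      have h3 : HasDerivAt (fun t : ℝ => (t : ℂ) * w) w ‖lc x‖ := by
        have h4 : HasDerivAt (fun t : ℝ => (t : ℂ)) 1 ‖lc x‖ := by
          have := (hasDerivAt_id ‖lc x‖).ofReal_comp
          simpa using this
        simpa using h4.mul_const w
      have h5 := (h3.smul_const (ew b)).const_add (pt (base x) 0)
      exact h5.congr_of_eventuallyEq (Eventually.of_forall hcurve)
    have hd2 : HasFDerivAt σ (fderiv ℂ σ x) (pt (base x) ((‖lc x‖ : ℂ) * w)) := by
      rw [hxe]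
      exact (hσd.differentiableAt (hQo.mem_nhds hx)).hasFDerivAt
    have hd3 : HasDerivAt (fun t : ℝ => σ (pt (base x) ((t : ℂ) * w)))
        (fderiv ℂ σ x (w • ew b)) ‖lc x‖ := by
      have := (hd2.restrictScalars ℝ).comp_hasDerivAt ‖lc x‖ hd1
      exact this
    have hd4 : HasDerivWithinAt X (fderiv ℂ σ x (w • ew b)) (Ico 0 r) ‖lc x‖ :=
      hd3.hasDerivWithinAt.congr (fun t ht => (heq t ht).symm) (heq _ hs).symm
    have hd5 : HasDerivWithinAt X (w • ξ (X ‖lc x‖)) (Ico 0 r) ‖lc x‖ :=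
      (hX.2 _ (hsub hs)).2.mono hsub
    have hu : UniqueDiffWithinAt ℝ (Ico (0 : ℝ) r) ‖lc x‖ := uniqueDiffOn_Ico 0 r _ hs
    have h6 := hu.eq_deriv _ hd4 hd5
    have h7 := heq _ hs
    rw [hxe] at h7
    rw [h7, map_smul] at *
    have hw0 : w ≠ 0 := by intro h; rw [h, norm_zero] at hw; exact zero_ne_one hw
    exact smul_right_injective _ hw0 h6
  -- the initial values
  have hini : ∀ z ∈ ball (0 : Cn b) r, σ (pt z 0) = p + insL i z := by
    intro z hz
    obtain ⟨X, hX⟩ := hsol' _ (hx0mem _ hz) 1 (by simp)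
    have hm : pt z 0 ∈ Q := by
      refine ⟨?_, ?_⟩
      · rw [base_pt]; exact hz
      · rw [lc_pt]; exact mem_ball_self hr0
    have h1 := hσX (pt z 0) hm 1 (by simp) 0 ⟨le_rfl, hT0.le⟩ (by rw [lc_pt]; simp) X
      (by rw [base_pt]; exact hX)
    rw [h1, hX.1, x0_eq]
  have hpt0 : (pt 0 0 : Cn (b + 1)) = 0 := by
    ext j
    refine Fin.addCases (fun j => ?_) (fun j => ?_) j <;> simp [pt]
  have h0Q : (0 : Cn (b + 1)) ∈ Q := by
    rw [← hpt0]
    refine ⟨?_, ?_⟩
    · rw [base_pt]; exact mem_ball_self hr0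
    · rw [lc_pt]; exact mem_ball_self hr0
  have hσ0 : σ 0 = p := by
    have := hini 0 (mem_ball_self hr0)
    rw [hpt0] at this
    rw [this]; simp
  have hd0 : HasFDerivAt σ (fderiv ℂ σ 0) 0 :=
    (hσd.differentiableAt (hQo.mem_nhds h0Q)).hasFDerivAt
  have hDz : ∀ z : Cn b, fderiv ℂ σ 0 (pt z 0) = insL i z := by
    intro z
    have h1 : HasDerivAt (fun t : ℂ => σ (t • pt z 0)) (fderiv ℂ σ 0 (pt z 0)) 0 := by
      have h2 : HasDerivAt (fun t : ℂ => t • (pt z 0 : Cn (b + 1))) (pt z 0) 0 := by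
        simpa using (hasDerivAt_id (0 : ℂ)).smul_const (pt z 0 : Cn (b + 1))
      have h3 : HasFDerivAt σ (fderiv ℂ σ 0) ((0 : ℂ) • (pt z 0 : Cn (b + 1))) := by
        rw [zero_smul]; exact hd0
      exact h3.comp_hasDerivAt 0 h2
    have h4 : HasDerivAt (fun t : ℂ => p + t • insL i z) (insL i z) 0 := by
      simpa using ((hasDerivAt_id (0 : ℂ)).smul_const (insL i z)).const_add p
    have h5 : (fun t : ℂ => σ (t • pt z 0)) =ᶠ[𝓝 0] fun t : ℂ => p + t • insL i z := by
      have h6 : ∀ᶠ t : ℂ in 𝓝 0, t • z ∈ ball (0 : Cn b) r := by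
        have : Tendsto (fun t : ℂ => t • z) (𝓝 0) (𝓝 0) := by
          have h7 : Continuous fun t : ℂ => t • z := by fun_prop
          simpa using h7.tendsto 0
        exact this (ball_mem_nhds _ hr0)
      filter_upwards [h6] with t ht
      have e : t • (pt z 0 : Cn (b + 1)) = pt (t • z) 0 := by
        ext j
        refine Fin.addCases (fun j => ?_) (fun j => ?_) j <;> simp [pt]
      show σ (t • pt z 0) = p + t • insL i z
      rw [e, hini _ ht, map_smul]
    exact h1.unique (h4.congr_of_eventuallyEq h5)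
  have hdet0 : (fderiv ℂ σ 0).det ≠ 0 := by
    intro hdet
    have h1 := LinearMap.bot_lt_ker_of_det_eq_zero (f := (fderiv ℂ σ 0 : Cn (b + 1) →ₗ[ℂ] _)) hdet
    refine h1.ne' (LinearMap.ker_eq_bot'.2 ?_)
    intro x hx
    have hx' : fderiv ℂ σ 0 x = 0 := hx
    have e : x = pt (base x) 0 + lc x • ew b := by
      ext j
      refine Fin.addCases (fun j => ?_) (fun j => ?_) j
      · have := congrFun (base_ew b) j
        simp only [base, Pi.zero_apply] at this
        simp [pt, base, this]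
      · obtain rfl : j = 0 := Subsingleton.elim _ _
        have := lc_ew b
        simp only [lc] at this
        simp [pt, lc, this]
    rw [e, map_add, map_smul, hDz, hode 0 h0Q, hσ0] at hx'
    have h2 := congrFun hx' i
    simp only [Pi.add_apply, Pi.smul_apply, Pi.zero_apply, insL_same, zero_add,
      hξi p hp, smul_eq_mul, mul_one] at h2
    rw [h2, zero_smul, add_zero] at hx'
    have h3 : base (k := 1) x = 0 := by
      ext j
      have := congrFun hx' (i.succAbove j)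
      rw [insL_succ] at this
      exact this
    rw [e, h2, h3, zero_smul, add_zero, hpt0]
  -- nearby
  have hcd : ContDiffAt ℂ 1 σ 0 :=
    ((holo_contDiffOn hQo hσd).contDiffAt (hQo.mem_nhds h0Q)).of_le (by simp)
  have hdetn : ∀ᶠ x in 𝓝 (0 : Cn (b + 1)), (fderiv ℂ σ x).det ≠ 0 := by
    have h1 : ContinuousAt (fun x => (fderiv ℂ σ x).det) 0 := by
      have h2 : ContinuousAt (fderiv ℂ σ) 0 :=
        ((holo_fderiv hQo hσd).continuousOn.continuousAt (hQo.mem_nhds h0Q))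
      exact ContinuousLinearMap.continuous_det.continuousAt.comp h2
    exact h1.eventually_ne hdet0
  have hstr : HasStrictFDerivAt σ (fderiv ℂ σ 0) 0 := hcd.hasStrictFDerivAt one_ne_zero
  obtain ⟨f', hf'⟩ : ∃ f' : Cn (b + 1) ≃L[ℂ] Cn (b + 1),
      (f' : Cn (b + 1) →L[ℂ] Cn (b + 1)) = fderiv ℂ σ 0 :=
    ⟨(fderiv ℂ σ 0).toContinuousLinearEquivOfDetNeZero hdet0, by
      ext x; simp⟩
  rw [← hf'] at hstr
  have hinj : ∃ U ∈ 𝓝 (0 : Cn (b + 1)), InjOn σ U :=
    ⟨(hstr.toOpenPartialHomeomorph σ).source,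
      (hstr.toOpenPartialHomeomorph σ).open_source.mem_nhds
        hstr.mem_toOpenPartialHomeomorph_source,
      (hstr.toOpenPartialHomeomorph σ).injOn⟩
  obtain ⟨U, hU, hUi⟩ := hinj
  obtain ⟨r', hr', hr'U⟩ := Metric.mem_nhds_iff.1
    (inter_mem (inter_mem hU (hQo.mem_nhds h0Q)) hdetn)
  have hsub : prodS (ball (0 : Cn b) r') (ball 0 r') ⊆ ball (0 : Cn (b + 1)) r' := by
    intro x hx
    rw [mem_ball_zero_iff, pi_norm_lt_iff hr']
    intro j
    have hx1 := hx.1
    have hx2 := hx.2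
    rw [mem_ball_zero_iff] at hx1 hx2
    refine Fin.addCases (fun j => ?_) (fun j => ?_) j
    · exact (norm_le_pi_norm (base x) j).trans_lt hx1
    · obtain rfl : j = 0 := Subsingleton.elim _ _
      exact hx2
  have hQ' : prodS (ball (0 : Cn b) r') (ball 0 r') ⊆ Q := fun x hx => (hr'U (hsub hx)).1.2
  refine ⟨r', hr', σ, hσd.mono hQ', hUi.mono fun x hx => (hr'U (hsub hx)).1.1, ?_, hσ0, ?_⟩
  · intro x hx
    exact hbW (hσW (hQ' hx))
  · intro x hx
    exact ⟨(hr'U (hsub hx)).2, hode x (hQ' hx)⟩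

end Pool.Agent.Helper40.SP
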