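import Pool.Agent.Helper10.SP.GoalsI
import Pool.Agent.Helper40.SP.STR
import Mathlib.Analysis.Complex.Harmonic.Liouville

/-! # LIOU: bounded pluriharmonic functions on `D × ℂ` -/

open Complex Metric Set Filter Topology
open scoped ContDiff ComplexConjugate

namespace Pool.Agent.Helper40.SP

open Pool.Agent.Helper95.Lin Pool.Agent.Helper16.Abund Pool.Agent.Helper10.SP

/-- The real linear map `w ↦ w • ew b`. -/
noncomputable def ewL (b : ℕ) : ℂ →L[ℝ] Cn (b + 1) :=
  ((ContinuousLinearMap.id ℂ ℂ).smulRight (ew b)).restrictScalars ℝ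

theorem ewL_apply (b : ℕ) (w : ℂ) : ewL b w = w • ew b := rfl

theorem pt_eq_add {b : ℕ} (z : Cn b) (w : ℂ) : pt z w = pt z 0 + ewL b w := by
  rw [ewL_apply]
  ext j
  refine Fin.addCases (fun j => ?_) (fun j => ?_) j
  · have := congrFun (base_ew b) j
    simp only [base, Pi.zero_apply] at this
    simp [pt, this]
  · obtain rfl : j = 0 := Subsingleton.elim _ _
    have := lc_ew b
    simp only [lc] at this
    simp [pt, this]

theorem hasFDerivAt_pt {b : ℕ} (z : Cn b) (w : ℂ) :
    HasFDerivAt (fun w => pt z w) (ewL b) w := by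
  have h : (fun w => pt z w) = fun w => pt z 0 + ewL b w := funext fun w => pt_eq_add z w
  rw [h]
  exact (ewL b).hasFDerivAt.const_add _

theorem liou : S_LIOU := by
  intro b D hD u hu hlev ⟨B, hB⟩ z hz w w'
  have hTo : IsOpen (tubeS D) := hD.preimage (baseL b).continuous
  have hm : ∀ w : ℂ, pt z w ∈ tubeS D := by
    intro w
    show base (pt z w) ∈ D
    rw [base_pt]; exact hz
  have hpt : ContDiff ℝ ∞ (fun w => pt z w) := by
    have h : (fun w => pt z w) = fun w => pt z 0 + ewL b w := funext fun w => pt_eq_add z w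
    rw [h]
    exact contDiff_const.add (ewL b).contDiff
  have hua : ∀ w : ℂ, ContDiffAt ℝ ∞ u (pt z w) := fun w => hu.contDiffAt (hTo.mem_nhds (hm w))
  have hf : ContDiff ℝ ∞ (fun w => u (pt z w)) := by
    rw [contDiff_iff_contDiffAt]
    intro w
    exact (hua w).comp w hpt.contDiffAt
  have hd1 : ∀ w v : ℂ, fderiv ℝ (fun w => u (pt z w)) w v = fderiv ℝ u (pt z w) (v • ew b) := by
    intro w v
    have h1 : HasFDerivAt u (fderiv ℝ u (pt z w)) (pt z w) :=
      ((hua w).differentiableAt (by simp)).hasFDerivAt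
    have h2 := h1.comp w (hasFDerivAt_pt z w)
    rw [show (fun w => u (pt z w)) = u ∘ fun w => pt z w from rfl, h2.fderiv]
    rfl
  have hd2 : ∀ w v v' : ℂ, fderiv ℝ (fderiv ℝ (fun w => u (pt z w))) w v v' =
      hess u (pt z w) (v • ew b) (v' • ew b) := by
    intro w v v'
    have h1 : DifferentiableAt ℝ (fderiv ℝ (fun w => u (pt z w))) w :=
      (hf.contDiffAt.fderiv_right (m := 1) (WithTop.coe_le_coe.2 le_top)).differentiableAt (by simp)
    have h2 : fderiv ℝ (fderiv ℝ (fun w => u (pt z w))) w v v' =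
        fderiv ℝ (fun w => fderiv ℝ (fun w => u (pt z w)) w v') w v := by
      rw [fderiv_clm_apply h1 (differentiableAt_const v')]
      simp
    rw [h2]
    have h3 : (fun w => fderiv ℝ (fun w => u (pt z w)) w v') =
        (fun y => fderiv ℝ u y (v' • ew b)) ∘ fun w => pt z w := funext fun w => hd1 w v'
    rw [h3]
    have h4 : DifferentiableAt ℝ (fun y => fderiv ℝ u y (v' • ew b)) (pt z w) := by
      have h5 : DifferentiableAt ℝ (fderiv ℝ u) (pt z w) :=
        ((hua w).fderiv_right (m := 1) (WithTop.coe_le_coe.2 le_top)).differentiableAt (by simp)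
      exact h5.clm_apply (differentiableAt_const _)
    have h6 := h4.hasFDerivAt.comp w (hasFDerivAt_pt z w)
    rw [h6.fderiv]
    rfl
  refine InnerProductSpace.bounded_harmonic_on_complex_plane_is_constant
    (fun w => u (pt z w)) ?_ ?_ w w'
  · intro x _
    refine ⟨hf.contDiffAt.of_le (WithTop.coe_le_coe.2 le_top), Eventually.of_forall fun y => ?_⟩
    rw [InnerProductSpace.laplacian_eq_iteratedFDeriv_complexPlane]
    simp only [iteratedFDeriv_two_apply, Matrix.cons_val_zero, Matrix.cons_val_one, hd2,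
      Pi.zero_apply]
    have := hlev (pt z y) (hm y) (ew b)
    simp only [lev] at this
    rw [one_smul]
    exact this
  · rw [isBounded_iff_forall_norm_le]
    refine ⟨B, ?_⟩
    rintro _ ⟨w, rfl⟩
    exact hB _ (hm w)

end Pool.Agent.Helper40.SP
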