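import Pool.Agent.Helper10.SP.GoalsI

/-! # TAUB: basics on the period map -/

open Complex Metric Set Filter Topology
open scoped ContDiff ComplexConjugate

namespace Pool.Agent.Helper40.SP

open Pool.Agent.Helper95.Lin Pool.Agent.Helper10.SP

theorem taub : S_TAUB := by
  intro b N c P lam hP
  obtain ⟨B, hB0, hB⟩ := hP.bdd
  have hopen : IsOpen (Bd c 3) := isOpen_iUnion fun i => isOpen_ball
  have hpos : ∀ z ∈ Bd c 3, 0 < (conj (lam 0 z) * lam 1 z).im := by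
    intro z hz
    have h1 := (hB z hz).2
    by_contra h
    have h2 : B * (conj (lam 0 z) * lam 1 z).im ≤ 0 :=
      mul_nonpos_of_nonneg_of_nonpos hB0.le (not_lt.1 h)
    linarith
  have hne : ∀ z ∈ Bd c 3, lam 0 z ≠ 0 := by
    intro z hz h
    have := hpos z hz
    rw [h] at this
    simp at this
  have hlt : ∀ z ∈ Bd c 3, lam 1 z = lam 0 z * tau lam z := by
    intro z hz
    rw [tau, mul_div_cancel₀ _ (hne z hz)]
  have him : ∀ z ∈ Bd c 3, (conj (lam 0 z) * lam 1 z).im = ‖lam 0 z‖ ^ 2 * (tau lam z).im := by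
    intro z hz
    rw [hlt z hz, ← mul_assoc, mul_comm (conj (lam 0 z)), Complex.mul_conj, Complex.im_ofReal_mul,
      Complex.normSq_eq_norm_sq]
  have hti : ∀ z ∈ Bd c 3, 0 < (tau lam z).im := by
    intro z hz
    have h1 := hpos z hz
    rw [him z hz] at h1
    have h2 : 0 < ‖lam 0 z‖ := norm_pos_iff.2 (hne z hz)
    exact (mul_pos_iff_of_pos_left (by positivity)).1 h1
  have hdt : DifferentiableOn ℂ (tau lam) (Bd c 3) := by
    intro z hz
    have h0 := (hP.holo 0) z hz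
    have h1 := (hP.holo 1) z hz
    have h2 : DifferentiableWithinAt ℂ (fun z => lam 1 z * (lam 0 z)⁻¹) (Bd c 3) z :=
      h1.mul (h0.inv (hne z hz))
    exact h2
  refine ⟨fun z hz => ⟨hne z hz, hti z hz, him z hz⟩, hdt, ?_⟩
  intro t Q z hz hgz hg hrel ha
  set τ' : ℂ := tau lam (t.g z) with hτ'
  have hr := hrel.self_of_nhds
  have hr0 : t.a z * lam 0 z = lam 0 (t.g z) * ((Q 0 0 : ℂ) + Q 1 0 * τ') := by
    have h1 := hr 0
    rw [Fin.sum_univ_two, hlt _ hgz] at h1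
    rw [h1]; ring
  have hr1 : t.a z * lam 1 z = lam 0 (t.g z) * ((Q 0 1 : ℂ) + Q 1 1 * τ') := by
    have h1 := hr 1
    rw [Fin.sum_univ_two, hlt _ hgz] at h1
    rw [h1]; ring
  have hden : (Q 0 0 : ℂ) + Q 1 0 * τ' ≠ 0 := by
    intro h
    rw [h, mul_zero] at hr0
    exact mul_ne_zero ha (hne z hz) hr0
  have hmob : ∀ z' ∈ Bd c 3, t.g z' ∈ Bd c 3 → (∀ j, t.a z' * lam j z' =
      ∑ k, ((Q k j : ℝ) : ℂ) * lam k (t.g z')) → (Q 0 0 : ℂ) + Q 1 0 * tau lam (t.g z') ≠ 0 →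
      tau lam z' = ((Q 0 1 : ℂ) + Q 1 1 * tau lam (t.g z')) /
        ((Q 0 0 : ℂ) + Q 1 0 * tau lam (t.g z')) := by
    intro z' hz' hgz' hr' hd'
    have h0 := hr' 0
    have h1 := hr' 1
    rw [Fin.sum_univ_two, hlt _ hgz'] at h0 h1
    have hm0 := hne _ hgz'
    have hl0 := hne _ hz'
    have e0 : t.a z' * lam 0 z' = lam 0 (t.g z') * ((Q 0 0 : ℂ) + Q 1 0 * tau lam (t.g z')) := by
      rw [h0]; ring
    have e1 : t.a z' * lam 1 z' = lam 0 (t.g z') * ((Q 0 1 : ℂ) + Q 1 1 * tau lam (t.g z')) := by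
      rw [h1]; ring
    have ha' : t.a z' ≠ 0 := by
      intro h
      rw [h, zero_mul] at e0
      exact mul_ne_zero hm0 hd' e0.symm
    rw [eq_div_iff hd', tau, div_mul_eq_mul_div, div_eq_iff hl0]
    have h2 : (t.a z' * lam 0 (t.g z')) * (lam 1 z' * ((Q 0 0 : ℂ) + Q 1 0 * tau lam (t.g z'))) =
        (t.a z' * lam 0 (t.g z')) * (((Q 0 1 : ℂ) + Q 1 1 * tau lam (t.g z')) * lam 0 z') := by
      calc (t.a z' * lam 0 (t.g z')) * (lam 1 z' * ((Q 0 0 : ℂ) + Q 1 0 * tau lam (t.g z')))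
          = (t.a z' * lam 1 z') * (lam 0 (t.g z') * ((Q 0 0 : ℂ) + Q 1 0 * tau lam (t.g z'))) := by
            ring
        _ = (lam 0 (t.g z') * ((Q 0 1 : ℂ) + Q 1 1 * tau lam (t.g z'))) * (t.a z' * lam 0 z') := by
            rw [e1, e0]
        _ = _ := by ring
    exact mul_left_cancel₀ (mul_ne_zero ha' hm0) h2
  have hmain : ‖t.a z‖ ^ 2 * (conj (lam 0 z) * lam 1 z).im =
      Q.det * (conj (lam 0 (t.g z)) * lam 1 (t.g z)).im := by
    have h1 : ((‖t.a z‖ ^ 2 : ℝ) : ℂ) * (conj (lam 0 z) * lam 1 z) =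
        conj (t.a z * lam 0 z) * (t.a z * lam 1 z) := by
      rw [map_mul, ← Complex.normSq_eq_norm_sq, ← Complex.mul_conj]; ring
    have h2 : (((‖t.a z‖ ^ 2 : ℝ) : ℂ) * (conj (lam 0 z) * lam 1 z)).im =
        ‖t.a z‖ ^ 2 * (conj (lam 0 z) * lam 1 z).im := Complex.im_ofReal_mul _ _
    rw [← h2, h1, hr0, hr1, him _ hgz, Matrix.det_fin_two]
    have h3 : conj (lam 0 (t.g z) * ((Q 0 0 : ℂ) + Q 1 0 * τ')) *
        (lam 0 (t.g z) * ((Q 0 1 : ℂ) + Q 1 1 * τ')) = ((‖lam 0 (t.g z)‖ ^ 2 : ℝ) : ℂ) *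
        (((Q 0 0 : ℂ) + Q 1 0 * conj τ') * ((Q 0 1 : ℂ) + Q 1 1 * τ')) := by
      rw [map_mul, map_add, map_mul, Complex.conj_ofReal, Complex.conj_ofReal,
        ← Complex.normSq_eq_norm_sq, ← Complex.mul_conj]
      ring
    rw [h3, Complex.im_ofReal_mul]
    simp only [Complex.mul_im, Complex.add_re, Complex.add_im, Complex.ofReal_re,
      Complex.ofReal_im, Complex.mul_re, Complex.conj_re, Complex.conj_im]
    ring
  have hdet : 0 < Q.det := by
    have h1 : 0 < Q.det * (conj (lam 0 (t.g z)) * lam 1 (t.g z)).im := by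
      rw [← hmain]
      have := hpos z hz
      have h2 : 0 < ‖t.a z‖ := norm_pos_iff.2 ha
      positivity
    exact (mul_pos_iff_of_pos_right (hpos _ hgz)).1 h1
  refine ⟨hdet, hden, hmob z hz hgz hr hden, ?_, ?_, hmain⟩
  · rw [hmob z hz hgz hr hden, ← hτ', Complex.div_im, Matrix.det_fin_two,
      Complex.normSq_eq_norm_sq]
    simp only [Complex.mul_im, Complex.add_re, Complex.add_im, Complex.ofReal_re,
      Complex.ofReal_im, Complex.mul_re]
    ring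
  · intro e
    have hτd : HasFDerivAt (tau lam) (fderiv ℂ (tau lam) (t.g z)) (t.g z) :=
      (hdt.differentiableAt (hopen.mem_nhds hgz)).hasFDerivAt
    have h1 : HasFDerivAt (fun z' => tau lam (t.g z'))
        ((fderiv ℂ (tau lam) (t.g z)).comp (fderiv ℂ t.g z)) z := hτd.comp z hg.hasFDerivAt
    have hM : HasDerivAt (fun s : ℂ => ((Q 0 1 : ℂ) + Q 1 1 * s) / ((Q 0 0 : ℂ) + Q 1 0 * s))
        (((Q 1 1 : ℂ) * ((Q 0 0 : ℂ) + Q 1 0 * τ') - ((Q 0 1 : ℂ) + Q 1 1 * τ') * (Q 1 0 : ℂ)) /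
          ((Q 0 0 : ℂ) + Q 1 0 * τ') ^ 2) τ' := by
      have a1 : HasDerivAt (fun s : ℂ => (Q 0 1 : ℂ) + Q 1 1 * s) (Q 1 1 : ℂ) τ' := by
        simpa using ((hasDerivAt_id τ').const_mul (Q 1 1 : ℂ)).const_add (Q 0 1 : ℂ)
      have a2 : HasDerivAt (fun s : ℂ => (Q 0 0 : ℂ) + Q 1 0 * s) (Q 1 0 : ℂ) τ' := by
        simpa using ((hasDerivAt_id τ').const_mul (Q 1 0 : ℂ)).const_add (Q 0 0 : ℂ)
      exact a1.div a2 hden
    have h2 := hM.comp_hasFDerivAt z h1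
    have hcg : ContinuousAt (fun z' => tau lam (t.g z')) z := h1.continuousAt
    have h3 : tau lam =ᶠ[𝓝 z] ((fun s : ℂ => ((Q 0 1 : ℂ) + Q 1 1 * s) /
        ((Q 0 0 : ℂ) + Q 1 0 * s)) ∘ fun z' => tau lam (t.g z')) := by
      have b1 : ∀ᶠ z' in 𝓝 z, z' ∈ Bd c 3 := hopen.mem_nhds hz
      have b2 : ∀ᶠ z' in 𝓝 z, t.g z' ∈ Bd c 3 :=
        hg.continuousAt.eventually (hopen.mem_nhds hgz)
      have b3 : ∀ᶠ z' in 𝓝 z, (Q 0 0 : ℂ) + Q 1 0 * tau lam (t.g z') ≠ 0 := by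
        have : ContinuousAt (fun z' => (Q 0 0 : ℂ) + Q 1 0 * tau lam (t.g z')) z :=
          continuousAt_const.add (continuousAt_const.mul hcg)
        exact this.eventually_ne hden
      filter_upwards [b1, b2, b3, hrel] with z' c1 c2 c3 c4
      exact hmob z' c1 c2 c4 c3
    have h4 := (h2.congr_of_eventuallyEq h3).fderiv
    rw [h4, Matrix.det_fin_two]
    simp only [_root_.smul_apply, ContinuousLinearMap.comp_apply, smul_eq_mul]
    push_cast
    ring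

end Pool.Agent.Helper40.SP
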