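import Pool.Agent.Helper45.SP.GoalsG
import Pool.Agent.Helper19.Lin.IDT
import Pool.Agent.Helper95.Lin.Basics

/-! # ANG: elements in the direction of a generator whose factor is near `1` -/

open Complex Metric Set Filter Topology
open scoped ContDiff ComplexConjugate

namespace Pool.Agent.Helper40.SP

open Pool.Agent.Helper95.Lin Pool.Agent.Helper10.SP Pool.Agent.Helper45.SP

/-- Some power with bounded exponent of a unit complex number is near `1`. -/
theorem exists_pow_near {ε : ℝ} (hε : 0 < ε) : ∃ K : ℕ, 0 < K ∧ ∀ e : ℂ, ‖e‖ = 1 →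
    ∃ l : ℕ, 1 ≤ l ∧ l ≤ K ∧ ‖e ^ l - 1‖ ≤ ε := by
  obtain ⟨K, hK⟩ := exists_nat_gt (2 * Real.pi / ε)
  have hpi : 0 < 2 * Real.pi := by positivity
  have hK0 : 0 < (K : ℝ) := lt_trans (by positivity) hK
  have hK0' : 0 < K := by exact_mod_cast hK0
  refine ⟨K, hK0', fun e he => ?_⟩
  obtain ⟨j, k, hk0, hkK, hjk⟩ :=
    Real.exists_int_int_abs_mul_sub_le (e.arg / (2 * Real.pi)) hK0'
  obtain ⟨l, rfl⟩ : ∃ l : ℕ, k = l := Int.eq_ofNat_of_zero_le hk0.le
  refine ⟨l, by exact_mod_cast hk0, by exact_mod_cast hkK, ?_⟩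
  have h1 : e ^ l = exp (I * ((2 * Real.pi * (((l : ℤ) : ℝ) * (e.arg / (2 * Real.pi)) - j) : ℝ)
      : ℂ)) := by
    have h2 : e = exp (e.arg * I) := by
      have := Complex.norm_mul_exp_arg_mul_I e
      rw [he] at this; simpa using this.symm
    conv_lhs => rw [h2]
    rw [← Complex.exp_nat_mul, Complex.exp_eq_exp_iff_exists_int]
    refine ⟨j, ?_⟩
    have hp : ((2 * Real.pi : ℝ) : ℂ) ≠ 0 := by exact_mod_cast hpi.ne'
    have hp' : (Real.pi : ℂ) ≠ 0 := by exact_mod_cast Real.pi_ne_zero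
    push_cast
    field_simp
    ring
  rw [h1]
  refine (Real.norm_exp_I_mul_ofReal_sub_one_le).trans ?_
  rw [Real.norm_eq_abs, abs_mul, abs_of_pos hpi]
  calc 2 * Real.pi * |((l : ℤ) : ℝ) * (e.arg / (2 * Real.pi)) - j|
      ≤ 2 * Real.pi * (1 / ((K : ℝ) + 1)) := by gcongr
    _ ≤ 2 * Real.pi * (1 / (2 * Real.pi / ε)) := by
        gcongr
        linarith
    _ = ε := by field_simp

/-- Smallness conditions. -/
theorem exists_small {K : ℕ} {M D ε μ : ℝ} (hε : 0 < ε) (hμ : 0 < μ) :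
    ∃ s > 0, s < μ ∧ M * s < μ ∧ (1 + D * s) ^ K - 1 ≤ ε := by
  have h1 : ∀ᶠ s in 𝓝[>] (0 : ℝ), s < μ :=
    (continuous_id.tendsto (0 : ℝ)).mono_left nhdsWithin_le_nhds |>.eventually (gt_mem_nhds hμ)
  have h2 : ∀ᶠ s in 𝓝[>] (0 : ℝ), M * s < μ := by
    have : Tendsto (fun s : ℝ => M * s) (𝓝[>] 0) (𝓝 0) := by
      have := ((continuous_const_mul M).tendsto (0 : ℝ)).mono_left
        (nhdsWithin_le_nhds (s := Ioi 0))
      simpa using this
    exact this.eventually (gt_mem_nhds hμ)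
  have h3 : ∀ᶠ s in 𝓝[>] (0 : ℝ), (1 + D * s) ^ K - 1 < ε := by
    have hc : Continuous fun s : ℝ => (1 + D * s) ^ K - 1 := by fun_prop
    have : Tendsto (fun s : ℝ => (1 + D * s) ^ K - 1) (𝓝[>] 0) (𝓝 0) := by
      have := (hc.tendsto (0 : ℝ)).mono_left (nhdsWithin_le_nhds (s := Ioi 0))
      simpa using this
    exact this.eventually (gt_mem_nhds hε)
  have h0 : ∀ᶠ s in 𝓝[>] (0 : ℝ), s ∈ Ioi (0 : ℝ) := eventually_mem_nhdsWithin
  obtain ⟨s, hs1, hs2, hs3, hs4⟩ := (h0.and (h1.and (h2.and h3))).exists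
  exact ⟨s, hs1, hs2, hs3, hs4.le⟩

theorem ANG (hPEX : S_PEX) (hPICK : S_PICK) : S_ANG := by
  intro b z₀ r A hA V hV ρ₀ hρ₀ ε₀ hε₀
  have hr : 0 < r := hA.pos
  -- normalizations
  obtain ⟨ε, hε, hε1, hεε₀⟩ : ∃ ε : ℝ, 0 < ε ∧ ε ≤ 1 ∧ ε ≤ ε₀ :=
    ⟨min ε₀ 1, lt_min hε₀ one_pos, min_le_right _ _, min_le_left _ _⟩
  obtain ⟨ρ, hρ0, hρr, hρρ₀, hρ2⟩ : ∃ ρ : ℝ, 0 < ρ ∧ ρ < r ∧ ρ₀ ≤ ρ ∧ r / 2 ≤ ρ :=
    ⟨max ρ₀ (r / 2), lt_max_of_lt_right (by linarith), max_lt hρ₀ (by linarith),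
      le_max_left _ _, le_max_right _ _⟩
  obtain ⟨ρ₁, hρ₁, hρ₁r⟩ : ∃ ρ₁ : ℝ, ρ < ρ₁ ∧ ρ₁ < r := exists_between hρr
  have hbr : ball z₀ ρ₁ ⊆ ball z₀ r := ball_subset_ball hρ₁r.le
  have hcb : closedBall z₀ ρ₁ ⊆ ball z₀ r := closedBall_subset_ball hρ₁r
  have hcomp : IsCompact (closedBall z₀ ρ₁) := isCompact_closedBall _ _
  obtain ⟨hVd, -, hVg⟩ := hV
  obtain ⟨B, hB'⟩ := hcomp.exists_bound_of_continuousOn (hVd.continuousOn.mono hcb)
  have hz₀c : z₀ ∈ closedBall z₀ ρ₁ := mem_closedBall_self (by linarith)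
  have hB0 : 0 ≤ B := (norm_nonneg _).trans (hB' _ hz₀c)
  have hB : ∀ z ∈ ball z₀ ρ₁, ‖V z‖ ≤ B := fun z hz => hB' z (ball_subset_closedBall hz)
  obtain ⟨L, hL'⟩ := hcomp.exists_bound_of_continuousOn
    ((holo_fderiv isOpen_ball hVd).continuousOn.mono hcb)
  have hL0 : 0 ≤ L := (norm_nonneg _).trans (hL' _ hz₀c)
  have hL : ∀ y ∈ ball z₀ ρ₁, ∀ z ∈ ball z₀ ρ₁, ‖V y - V z‖ ≤ L * ‖y - z‖ := by
    intro y hy z hz
    refine Convex.norm_image_sub_le_of_norm_fderiv_le (𝕜 := ℂ) (f := V) (s := ball z₀ ρ₁) ?_ ?_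
      (convex_ball _ _) hz hy
    · intro x hx
      exact hVd.differentiableAt (isOpen_ball.mem_nhds (hbr hx))
    · intro x hx
      exact hL' x (ball_subset_closedBall hx)
  -- the constants
  obtain ⟨cE, hcE, hE⟩ := hPEX hA.toLGrp ρ hρ0 hρr
  obtain ⟨η, hη, C', hlip'⟩ := hA.lip
  obtain ⟨C, hC0, hlip⟩ : ∃ C : ℝ, 0 ≤ C ∧ ∀ t ∈ A, ∀ s ≤ η, 0 ≤ s → Near z₀ (r / 2) t.g s →
      ∀ z ∈ ball z₀ (r / 3), |‖t.a z‖ - 1| ≤ C * s := by
    refine ⟨max C' 0, le_max_right _ _, fun t ht s hs hs0 hn z hz => ?_⟩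
    exact (hlip' t ht s hs hn z hz).trans (mul_le_mul_of_nonneg_right (le_max_left _ _) hs0)
  obtain ⟨K, hK0, hK⟩ := exists_pow_near (ε := ε / 2) (by linarith)
  have hK1 : (1 : ℝ) ≤ K := by exact_mod_cast hK0
  obtain ⟨σ₀, hσ₀, hgen⟩ := hVg ρ₁ hρ₁r (ε / 4) (by linarith)
  set D : ℝ := 4 * (C * (B + 1)) with hD
  have hD0 : 0 ≤ D := by positivity
  -- all conditions
  obtain ⟨μ, hμ, hμ1⟩ : ∃ μ : ℝ, 0 < μ ∧ μ ≤ σ₀ ∧ μ ≤ ρ₁ - ρ ∧ μ ≤ r / 6 ∧ μ ≤ cE ∧ μ ≤ ε ∧
      μ ≤ ε / 4 ∧ μ ≤ 1 ∧ μ ≤ η := by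
    refine ⟨min σ₀ (min (ρ₁ - ρ) (min (r / 6) (min cE (min (ε / 4) (min 1 η))))), ?_, ?_⟩
    · have h1 : 0 < ρ₁ - ρ := by linarith
      have h2 : 0 < r / 6 := by linarith
      have h3 : 0 < ε / 4 := by linarith
      simp only [lt_min_iff]
      exact ⟨hσ₀, h1, h2, hcE, h3, one_pos, hη⟩
    · set m := min σ₀ (min (ρ₁ - ρ) (min (r / 6) (min cE (min (ε / 4) (min 1 η))))) with hm
      have h0 : m ≤ m := le_rfl
      conv at h0 => rhs; rw [hm]
      simp only [le_min_iff] at h0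
      obtain ⟨a1, a2, a3, a4, a5, a6, a7⟩ := h0
      exact ⟨a1, a2, a3, a4, by linarith, a5, a6, a7⟩
  obtain ⟨hμ1, hμ2, hμ3, hμ4, hμ5, hμ6, hμ7, hμ8⟩ := hμ1
  set M : ℝ := K * (B + 1) * (1 + L) * (1 + C) with hM
  obtain ⟨s, hs0, hsμ, hsM, hsK⟩ := exists_small (K := K) (M := M) (D := 2 * D) (ε := ε / 2)
    (μ := μ) (by linarith) hμ
  have hB1 : 1 ≤ B + 1 := by linarith
  have hL1 : 1 ≤ 1 + L := by linarith
  have hC1 : 1 ≤ 1 + C := by linarith
  have hLC : 1 ≤ (1 + L) * (1 + C) := one_le_mul_of_one_le_of_one_le hL1 hC1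
  have hKB0 : 0 ≤ (K : ℝ) * (B + 1) := by positivity
  have hKB : B + 1 ≤ (K : ℝ) * (B + 1) := le_mul_of_one_le_left (by linarith) hK1
  have hKK : (K : ℝ) ≤ K * (B + 1) := le_mul_of_one_le_right (by linarith) hB1
  have hMe : M = K * (B + 1) * ((1 + L) * (1 + C)) := by rw [hM]; ring
  have hMKB : K * (B + 1) ≤ M := by
    rw [hMe]; exact le_mul_of_one_le_right hKB0 hLC
  have hLLC : L ≤ (1 + L) * (1 + C) :=
    (by linarith : L ≤ 1 + L).trans (le_mul_of_one_le_right (by linarith) hC1)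
  have hCLC : C ≤ (1 + L) * (1 + C) :=
    (by linarith : C ≤ 1 + C).trans (le_mul_of_one_le_left (by linarith) hL1)
  have hM1 : K * s ≤ M * s := mul_le_mul_of_nonneg_right (hKK.trans hMKB) hs0.le
  have hM2 : K * s * (B + 1) ≤ M * s := by
    have := mul_le_mul_of_nonneg_right hMKB hs0.le
    calc K * s * (B + 1) = K * (B + 1) * s := by ring
      _ ≤ M * s := this
  have hM3 : L * (K * s * (B + 1)) ≤ M * s := by
    have h3 : (K : ℝ) * (B + 1) * L ≤ M := by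
      rw [hMe]; exact mul_le_mul_of_nonneg_left hLLC hKB0
    calc L * (K * s * (B + 1)) = K * (B + 1) * L * s := by ring
      _ ≤ M * s := mul_le_mul_of_nonneg_right h3 hs0.le
  have hM4 : C * ((B + 1) * s) ≤ M * s := by
    have h3 : (B + 1) * C ≤ M := by
      rw [hMe]
      exact mul_le_mul hKB hCLC hC0 hKB0
    calc C * ((B + 1) * s) = (B + 1) * C * s := by ring
      _ ≤ M * s := mul_le_mul_of_nonneg_right h3 hs0.le
  have hM5 : (B + 1) * s ≤ M * s := mul_le_mul_of_nonneg_right (hKB.trans hMKB) hs0.le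
  -- the element
  obtain ⟨t, ht, htV⟩ := hgen s hs0 (hsμ.trans_le hμ1)
  have htn : ∀ z ∈ ball z₀ ρ₁, ‖t.g z - z‖ ≤ (B + 1) * s := by
    intro z hz
    have h1 := htV z hz
    have h2 := hB z hz
    calc ‖t.g z - z‖ = ‖(t.g z - z - s • V z) + s • V z‖ := by congr 1; abel
      _ ≤ ‖t.g z - z - s • V z‖ + ‖s • V z‖ := norm_add_le _ _
      _ ≤ ε / 4 * s + s * B := by
          rw [norm_smul, Real.norm_of_nonneg hs0.le]
          gcongr
      _ ≤ (B + 1) * s := by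
          have : ε / 4 * s ≤ 1 * s := mul_le_mul_of_nonneg_right (by linarith) hs0.le
          linarith
  have hBs : 0 ≤ (B + 1) * s := by positivity
  have htρ : Near z₀ ρ t.g cE := fun z hz =>
    (htn z (ball_subset_ball hρ₁.le hz)).trans (by linarith)
  have htr2 : Near z₀ (r / 2) t.g ((B + 1) * s) := fun z hz =>
    htn z (ball_subset_ball (by linarith) hz)
  have hta : ∀ z ∈ ball z₀ (r / 3), |‖t.a z‖ - 1| ≤ C * ((B + 1) * s) :=
    hlip t ht _ (by linarith) hBs htr2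
  have hz₀3 : z₀ ∈ ball z₀ (r / 3) := mem_ball_self (by linarith)
  have hz₀6 : z₀ ∈ ball z₀ (r / 6) := mem_ball_self (by linarith)
  have hfa : ∀ z ∈ ball z₀ (r / 6), ‖t.a z - t.a z₀‖ ≤ D * s := by
    intro z hz
    have h1 := hPICK z₀ (r / 6) (r / 3) (by linarith) t.a (C * ((B + 1) * s)) (by linarith)
      ((hA.a_holo t ht).mono (ball_subset_ball (by linarith))) hta
    have h2 := Convex.norm_image_sub_le_of_norm_fderiv_le (𝕜 := ℂ) (f := t.a)
      (s := ball z₀ (r / 6)) (fun x hx => (hA.a_holo t ht).differentiableAt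
        (isOpen_ball.mem_nhds (ball_subset_ball (by linarith) hx))) h1
      (convex_ball _ _) hz₀6 hz
    refine h2.trans ?_
    rw [mem_ball, dist_eq_norm] at hz
    calc 4 * (C * ((B + 1) * s)) / (r / 3 - r / 6) * ‖z - z₀‖
        ≤ 4 * (C * ((B + 1) * s)) / (r / 3 - r / 6) * (r / 6) := by
          apply mul_le_mul_of_nonneg_left hz.le
          apply div_nonneg (by positivity) (by linarith)
      _ = D * s := by
          rw [hD]
          have : r / 3 - r / 6 = r / 6 := by ring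
          rw [this]; field_simp
  have ha0 : t.a z₀ ≠ 0 := hA.a_ne t ht z₀ (mem_ball_self hr)
  have ha0' : (‖t.a z₀‖ : ℂ) ≠ 0 := by exact_mod_cast norm_ne_zero_iff.2 ha0
  set e : ℂ := t.a z₀ / ‖t.a z₀‖ with he
  have he1 : ‖e‖ = 1 := by
    rw [he, norm_div, Complex.norm_real, norm_norm, div_self (norm_ne_zero_iff.2 ha0)]
  have hae : ‖t.a z₀ - e‖ ≤ D * s := by
    have h1 : t.a z₀ - e = ((‖t.a z₀‖ - 1 : ℝ) : ℂ) * e := by
      rw [he]; push_cast; field_simp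
    rw [h1, norm_mul, he1, mul_one, Complex.norm_real]
    refine (hta z₀ hz₀3).trans ?_
    have h2 : 0 ≤ C * ((B + 1) * s) := mul_nonneg hC0 hBs
    have h3 : D * s = 4 * (C * ((B + 1) * s)) := by rw [hD]; ring
    rw [h3]; linarith
  have hfe : ∀ z ∈ ball z₀ (r / 6), ‖t.a z - e‖ ≤ 2 * D * s := by
    intro z hz
    calc ‖t.a z - e‖ = ‖(t.a z - t.a z₀) + (t.a z₀ - e)‖ := by congr 1; ring
      _ ≤ ‖t.a z - t.a z₀‖ + ‖t.a z₀ - e‖ := norm_add_le _ _
      _ ≤ 2 * D * s := by linarith [hfa z hz]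
  obtain ⟨u, huA, hu0, hus⟩ := hE t ht htρ
  set δ : ℝ := 2 * D * s with hδ
  have hδ0 : 0 ≤ δ := by positivity
  set κ : ℝ := ε / 4 + L * (K * s * (B + 1)) with hκ
  have hκε : κ ≤ ε / 2 := by rw [hκ]; linarith
  -- induction
  have key : ∀ l ≤ K, (∀ z ∈ ball z₀ ρ, ‖(u l).g z - z‖ ≤ l * s * (B + 1) ∧
      ‖(u l).g z - z - ((l : ℝ) * s) • V z‖ ≤ l * s * κ) ∧
      ‖(u l).a z₀‖ ≤ (1 + δ) ^ l ∧ ‖(u l).a z₀ - e ^ l‖ ≤ (1 + δ) ^ l - 1 := by
    intro l
    induction l with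
    | zero =>
      intro _
      refine ⟨fun z hz => ?_, ?_, ?_⟩
      · have h1 := (hu0 z (ball_subset_ball hρr.le hz)).1
        rw [h1]
        simp [Tri.one]
      · have h1 := (hu0 z₀ (mem_ball_self hr)).2.1
        rw [h1]; simp [Tri.one]
      · have h1 := (hu0 z₀ (mem_ball_self hr)).2.1
        rw [h1]; simp [Tri.one]
    | succ l ih =>
      intro hl
      obtain ⟨ih1, ih2, ih3⟩ := ih (by omega)
      have hlK : (l : ℝ) ≤ K := by exact_mod_cast (by omega : l ≤ K)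
      have hl0 : (0 : ℝ) ≤ l := Nat.cast_nonneg l
      have hlsB : l * s * (B + 1) ≤ K * s * (B + 1) := by
        have : 0 ≤ B + 1 := by linarith
        gcongr
      have hnear : Near z₀ ρ (u l).g cE := fun z hz =>
        ((ih1 z hz).1.trans hlsB).trans (by linarith)
      obtain ⟨d, hd, hmul⟩ := hus l hnear
      have hmaps : MapsTo (u l).g (ball z₀ ρ) (ball z₀ ρ₁) := by
        intro z hz
        have h1 := (ih1 z hz).1
        rw [mem_ball, dist_eq_norm] at hz ⊢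
        calc ‖(u l).g z - z₀‖ = ‖((u l).g z - z) + (z - z₀)‖ := by congr 1; abel
          _ ≤ ‖(u l).g z - z‖ + ‖z - z₀‖ := norm_add_le _ _
          _ < ρ₁ := by linarith
      have hid : ∀ z ∈ ball z₀ ρ, (u (l + 1)).g z = t.g ((u l).g z) := by
        have h1 : DifferentiableOn ℂ (fun z => (u (l + 1)).g z - t.g ((u l).g z))
            (ball z₀ ρ) := by
          refine DifferentiableOn.sub ((hA.g_holo _ (huA _)).mono (ball_subset_ball hρr.le)) ?_
          exact (hA.g_holo t ht).comp ((hA.g_holo _ (huA _)).mono (ball_subset_ball hρr.le))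
            (fun z hz => hbr (hmaps hz))
        have h2 := Pool.Agent.Helper19.Lin.idt (ball z₀ ρ) isOpen_ball
          (convex_ball z₀ ρ).isPreconnected _ h1 z₀ (mem_ball_self hρ0) ?_
        · intro z hz
          exact sub_eq_zero.1 (h2 z hz)
        · filter_upwards [ball_mem_nhds z₀ hd] with z hz
          rw [sub_eq_zero]
          exact (hmul z hz).1
      have hfac : (u (l + 1)).a z₀ = t.a ((u l).g z₀) * (u l).a z₀ :=
        (hmul z₀ (mem_ball_self hd)).2.1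
      refine ⟨fun z hz => ?_, ?_, ?_⟩
      · have hy := hmaps hz
        have h1 := htn _ hy
        have h2 := htV _ hy
        have h3 := hL _ hy _ (ball_subset_ball hρ₁.le hz)
        obtain ⟨h4, h5⟩ := ih1 z hz
        constructor
        · rw [hid z hz]
          calc ‖t.g ((u l).g z) - z‖ = ‖(t.g ((u l).g z) - (u l).g z) + ((u l).g z - z)‖ := by
                congr 1; abel
            _ ≤ ‖t.g ((u l).g z) - (u l).g z‖ + ‖(u l).g z - z‖ := norm_add_le _ _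
            _ ≤ (B + 1) * s + l * s * (B + 1) := by linarith
            _ = ((l + 1 : ℕ) : ℝ) * s * (B + 1) := by push_cast; ring
        · rw [hid z hz]
          have e1 : t.g ((u l).g z) - z - (((l + 1 : ℕ) : ℝ) * s) • V z =
              (t.g ((u l).g z) - (u l).g z - s • V ((u l).g z)) +
              ((u l).g z - z - ((l : ℝ) * s) • V z) + s • (V ((u l).g z) - V z) := by
            push_cast
            rw [add_mul, one_mul, add_smul, smul_sub]
            abel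
          rw [e1]
          refine (norm_add₃_le).trans ?_
          have h6 : ‖s • (V ((u l).g z) - V z)‖ ≤ s * (L * (K * s * (B + 1))) := by
            rw [norm_smul, Real.norm_of_nonneg hs0.le]
            refine mul_le_mul_of_nonneg_left (h3.trans ?_) hs0.le
            exact mul_le_mul_of_nonneg_left (h4.trans hlsB) hL0
          have e2 : ((l + 1 : ℕ) : ℝ) * s * κ = ε / 4 * s + l * s * κ +
              s * (L * (K * s * (B + 1))) := by
            push_cast; rw [hκ]; ring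
          rw [e2]
          linarith
      · have hm6 : (u l).g z₀ ∈ ball z₀ (r / 6) := by
          have h1 := (ih1 z₀ (mem_ball_self hρ0)).1
          rw [mem_ball, dist_eq_norm]
          linarith
        have h2 := hfe _ hm6
        have h3 : ‖t.a ((u l).g z₀)‖ ≤ 1 + δ := by
          calc ‖t.a ((u l).g z₀)‖ = ‖e + (t.a ((u l).g z₀) - e)‖ := by congr 1; ring
            _ ≤ ‖e‖ + ‖t.a ((u l).g z₀) - e‖ := norm_add_le _ _
            _ ≤ 1 + δ := by rw [he1]; linarith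
        rw [hfac, norm_mul, pow_succ, mul_comm ((1 + δ) ^ l)]
        exact mul_le_mul h3 ih2 (norm_nonneg _) (by positivity)
      · have hm6 : (u l).g z₀ ∈ ball z₀ (r / 6) := by
          have h1 := (ih1 z₀ (mem_ball_self hρ0)).1
          rw [mem_ball, dist_eq_norm]
          linarith
        have h2 := hfe _ hm6
        have e1 : (u (l + 1)).a z₀ - e ^ (l + 1) = (t.a ((u l).g z₀) - e) * (u l).a z₀ +
            e * ((u l).a z₀ - e ^ l) := by
          rw [hfac]; ring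
        rw [e1]
        refine (norm_add_le _ _).trans ?_
        rw [norm_mul, norm_mul, he1, one_mul]
        have h3 : ‖t.a ((u l).g z₀) - e‖ * ‖(u l).a z₀‖ ≤ δ * (1 + δ) ^ l :=
          mul_le_mul h2 ih2 (norm_nonneg _) hδ0
        have e2 : (1 + δ) ^ (l + 1) - 1 = δ * (1 + δ) ^ l + ((1 + δ) ^ l - 1) := by ring
        rw [e2]
        linarith
  obtain ⟨l, hl1, hlK, hle⟩ := hK e he1
  obtain ⟨hk1, hk2, hk3⟩ := key l hlK
  have hlr : (1 : ℝ) ≤ l := by exact_mod_cast hl1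
  have hlKr : (l : ℝ) ≤ K := by exact_mod_cast hlK
  have hls0 : 0 < (l : ℝ) * s := by positivity
  refine ⟨l * s, hls0, ?_, u l, huA l, ?_, ?_⟩
  · have : (l : ℝ) * s ≤ K * s := by gcongr
    linarith
  · intro z hz
    refine (hk1 z (ball_subset_ball hρρ₀ hz)).2.trans ?_
    calc (l : ℝ) * s * κ ≤ l * s * ε₀ := by
          apply mul_le_mul_of_nonneg_left _ hls0.le
          linarith
      _ = ε₀ * (l * s) := by ring
  · have h1 : (1 + δ) ^ l ≤ (1 + δ) ^ K := pow_le_pow_right₀ (by linarith) hlK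
    calc ‖(u l).a z₀ - 1‖ = ‖((u l).a z₀ - e ^ l) + (e ^ l - 1)‖ := by congr 1; ring
      _ ≤ ‖(u l).a z₀ - e ^ l‖ + ‖e ^ l - 1‖ := norm_add_le _ _
      _ ≤ ε / 2 + ε / 2 := by
          gcongr
          exact hk3.trans (by linarith)
      _ ≤ ε₀ := by linarith

end Pool.Agent.Helper40.SP
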